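import Mathlib

/-! The curve `y ^ 2 = x ^ 3 + 1` and addition of its points relative to a base point. -/

set_option autoImplicit false
set_option linter.unusedSectionVars false

namespace Pool.Agent.V1156.Dgr

open WeierstrassCurve

variable {Ω : Type*} [Field Ω] [DecidableEq Ω]

/-- The curve `y ^ 2 = x ^ 3 + 1`. -/
def W (Ω : Type*) [Field Ω] : Affine Ω := ⟨0, 0, 0, 0, 1⟩

/-- `P` is the affine point `(x, y)`. -/
def At (P : (W Ω).Point) (x y : Ω) : Prop := ∃ h, P = Affine.Point.some x y h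

omit [DecidableEq Ω] in
theorem W_delta (h6 : (6 : Ω) ≠ 0) : (W Ω).Δ ≠ 0 := by
  have : (W Ω).Δ = -(2 * 6 ^ 2 * 6) := by
    simp only [W, WeierstrassCurve.Δ, WeierstrassCurve.b₂, WeierstrassCurve.b₄,
      WeierstrassCurve.b₆, WeierstrassCurve.b₈]
    norm_num
  rw [this]
  have h2 : (2 : Ω) ≠ 0 := by
    intro h
    apply h6
    have : (6 : Ω) = 2 * 3 := by norm_num
    rw [this, h, zero_mul]
  exact neg_ne_zero.2 (mul_ne_zero (mul_ne_zero h2 (pow_ne_zero _ h6)) h6)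

omit [DecidableEq Ω] in
theorem W_eq_iff (x y : Ω) : (W Ω).Equation x y ↔ y ^ 2 = x ^ 3 + 1 := by
  rw [Affine.equation_iff]
  simp [W]

omit [DecidableEq Ω] in
theorem exists_at (h6 : (6 : Ω) ≠ 0) {x y : Ω} (h : y ^ 2 = x ^ 3 + 1) :
    ∃ P : (W Ω).Point, At P x y := by
  have h1 : (W Ω).Nonsingular x y :=
    (Affine.equation_iff_nonsingular_of_Δ_ne_zero (W_delta h6)).1 ((W_eq_iff x y).2 h)
  exact ⟨_, h1, rfl⟩

omit [DecidableEq Ω] in
theorem At.eqn {P : (W Ω).Point} {x y : Ω} (h : At P x y) : y ^ 2 = x ^ 3 + 1 := by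
  obtain ⟨h1, rfl⟩ := h
  exact (W_eq_iff x y).1 h1.1

omit [DecidableEq Ω] in
theorem At.inj {P : (W Ω).Point} {x y x' y' : Ω} (h : At P x y) (h' : At P x' y') :
    x = x' ∧ y = y' := by
  obtain ⟨h1, rfl⟩ := h
  obtain ⟨h2, h3⟩ := h'
  simpa using h3

omit [DecidableEq Ω] in
theorem At.congr {P : (W Ω).Point} {x y x' y' : Ω} (h : At P x y) (hx : x = x') (hy : y = y') :
    At P x' y' := by
  subst hx hy
  exact h

omit [DecidableEq Ω] in
theorem At.ne_zero {P : (W Ω).Point} {x y : Ω} (h : At P x y) : P ≠ 0 := by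
  obtain ⟨h1, rfl⟩ := h
  exact Affine.Point.some_ne_zero _

omit [DecidableEq Ω] in
theorem at_or_zero (P : (W Ω).Point) : P = 0 ∨ ∃ x y, At P x y := by
  rcases P with _ | ⟨x, y, h⟩
  · left; rfl
  · right; exact ⟨x, y, h, rfl⟩

omit [DecidableEq Ω] in
theorem At.neg {P : (W Ω).Point} {x y : Ω} (h : At P x y) : At (-P) x (-y) := by
  obtain ⟨h1, rfl⟩ := h
  have h2 : (W Ω).negY x y = -y := by simp [W, Affine.negY]
  refine ⟨?_, ?_⟩
  · rw [← h2]; exact (Affine.nonsingular_neg ..).mpr h1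
  · rw [Affine.Point.neg_some]
    congr 1

omit [DecidableEq Ω] in
theorem At.eq_of {P Q : (W Ω).Point} {x y : Ω} (h : At P x y) (h' : At Q x y) : P = Q := by
  obtain ⟨h1, rfl⟩ := h
  obtain ⟨h2, rfl⟩ := h'
  rfl

omit [DecidableEq Ω] in
theorem At.eq_or_neg {P Q : (W Ω).Point} {x y y' : Ω} (h : At P x y) (h' : At Q x y') :
    P = Q ∨ P = -Q := by
  have h1 := h.eqn
  have h2 := h'.eqn
  have h3 : (y - y') * (y + y') = 0 := by linear_combination h1 - h2
  rcases mul_eq_zero.1 h3 with h4 | h4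
  · left
    have : y = y' := sub_eq_zero.1 h4
    subst this
    exact h.eq_of h'
  · right
    have : y = -y' := eq_neg_of_add_eq_zero_left h4
    subst this
    exact h.eq_of h'.neg

theorem At.add {P Q : (W Ω).Point} {x y x' y' : Ω} (h : At P x y) (h' : At Q x' y') (hx : x ≠ x') :
    At (P + Q) (((y - y') / (x - x')) ^ 2 - x - x')
      (-(y + (y - y') / (x - x') * (((y - y') / (x - x')) ^ 2 - x - x' - x))) := by
  obtain ⟨h1, rfl⟩ := h
  obtain ⟨h2, rfl⟩ := h'
  rw [Affine.Point.add_of_X_ne hx]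
  have hs : (W Ω).slope x x' y y' = (y - y') / (x - x') := Affine.slope_of_X_ne hx
  refine At.congr ⟨_, rfl⟩ ?_ ?_
  · rw [hs]; simp [Affine.addX, W]
  · rw [hs]; simp [Affine.addY, Affine.negAddY, Affine.negY, Affine.addX, W]; ring

theorem At.dbl {P : (W Ω).Point} {x y : Ω} (h : At P x y) (hy : 2 * y ≠ 0) :
    At (P + P) ((3 * x ^ 2 / (2 * y)) ^ 2 - x - x)
      (-(y + 3 * x ^ 2 / (2 * y) * ((3 * x ^ 2 / (2 * y)) ^ 2 - x - x - x))) := by
  obtain ⟨h1, rfl⟩ := h
  have h2 : (W Ω).negY x y = -y := by simp [W, Affine.negY]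
  have hy' : y ≠ (W Ω).negY x y := by
    rw [h2]
    intro h3
    apply hy
    linear_combination h3
  rw [Affine.Point.add_self_of_Y_ne hy']
  have hs : (W Ω).slope x x y y = 3 * x ^ 2 / (2 * y) := by
    rw [Affine.slope_of_Y_ne rfl hy', h2]
    simp only [W]
    congr 1 <;> ring
  refine At.congr ⟨_, rfl⟩ ?_ ?_
  · rw [hs]; simp [Affine.addX, W]
  · rw [hs]; simp [Affine.addY, Affine.negAddY, Affine.negY, Affine.addX, W]; ring

theorem At.dbl_zero {P : (W Ω).Point} {x y : Ω} (h : At P x y) (hy : y = 0) : P + P = 0 := by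
  have h1 : P = -P := by
    subst hy
    have := h.neg
    rw [_root_.neg_zero] at this
    exact h.eq_of this
  nth_rewrite 2 [h1]
  exact add_neg_cancel P

end Pool.Agent.V1156.Dgr
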