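import Mathlib

/-! Rational self-maps of projective space, the degrees of their iterates, and growth of
sequences. -/

set_option autoImplicit false

namespace Pool.Agent.V1156.Dgr

open MvPolynomial Filter Topology

variable {K : Type*} [Field K] {N : ℕ}

/-- The polynomials `f_0, …, f_N` are homogeneous of degree `d` and have no nonconstant common
factor: in these coordinates `f = [f_0 : … : f_N]` is a rational self-map of projective `N`-space
of degree `d`. -/
def IsReduced (f : Fin (N + 1) → MvPolynomial (Fin (N + 1)) K) (d : ℕ) : Prop :=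
  (∀ i, (f i).IsHomogeneous d) ∧ ∀ h, (∀ i, h ∣ f i) → IsUnit h

/-- The map `f` is dominant: `f_0, …, f_N` satisfy no nontrivial polynomial relation. -/
def Dominant (f : Fin (N + 1) → MvPolynomial (Fin (N + 1)) K) : Prop :=
  AlgebraicIndependent K f

/-- The polynomials obtained by substituting `f` into itself `n` times, without removing common
factors. -/
noncomputable def substIterate (f : Fin (N + 1) → MvPolynomial (Fin (N + 1)) K) :
    ℕ → Fin (N + 1) → MvPolynomial (Fin (N + 1)) K
  | 0 => X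
  | n + 1 => fun i => aeval (substIterate f n) (f i)

/-- The `n`-th iterate of `f`, written with common factors removed, has degree `d`. -/
def IterateDegree (f : Fin (N + 1) → MvPolynomial (Fin (N + 1)) K) (n d : ℕ) : Prop :=
  ∃ (h : MvPolynomial (Fin (N + 1)) K) (g : Fin (N + 1) → MvPolynomial (Fin (N + 1)) K),
    h ≠ 0 ∧ IsReduced g d ∧ ∀ i, substIterate f n i = h * g i

/-- The sequence `deg (f ^ n) ^ (1 / n)` of `n`-th roots of the degrees tends to `δ`. -/
def IsDynamicalDegree (deg : ℕ → ℕ) (δ : ℝ) : Prop :=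
  Tendsto (fun n : ℕ => (deg n : ℝ) ^ (1 / (n : ℝ))) atTop (𝓝 δ)

/-- `F` and `G` are comparable: there are constants `c₁, c₂, c₃ > 0` with
`c₁ F(n) ≤ G(n) ≤ c₂ F(n)` for all `n ≥ c₃`. -/
def Comparable (F G : ℕ → ℝ) : Prop :=
  ∃ c₁ c₂ c₃ : ℝ, 0 < c₁ ∧ 0 < c₂ ∧ 0 < c₃ ∧
    ∀ n : ℕ, c₃ ≤ n → c₁ * F n ≤ G n ∧ G n ≤ c₂ * F n

end Pool.Agent.V1156.Dgr
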