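import Pool.Agent.V1156.Dgr.Gen2

/-! The homogeneous polynomials defining the self-map of projective three-space; dominance. -/

set_option autoImplicit false
set_option linter.unusedSectionVars false

namespace Pool.Agent.V1156.Dgr

open MvPolynomial

variable {K : Type*} [Field K]

section tuple

variable {N : ℕ}

theorem exists_tuple (a : Fin N → QF (Fin (N + 1)) K) (d : ℕ) (ha : ∀ i, Rep (a i) d) :
    ∃ (f : Fin (N + 1) → MvPolynomial (Fin (N + 1)) K) (e : ℕ), IsReduced f e ∧ f 0 ≠ 0 ∧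
      ∀ i : Fin N, inc (f i.succ) / inc (f 0) = a i := by
  choose p q hp hq hq0 hpq using ha
  have hprod0 : ∏ j, q j ≠ 0 := Finset.prod_ne_zero_iff.2 fun j _ => hq0 j
  let τ : Fin (N + 1) → MvPolynomial (Fin (N + 1)) K :=
    Fin.cases (∏ j, q j) (fun i => p i * ∏ j ∈ Finset.univ.erase i, q j)
  have hτ : ∀ i, (τ i).IsHomogeneous (N * d) := by
    intro i
    refine Fin.cases ?_ (fun i => ?_) i
    · have := IsHomogeneous.prod Finset.univ q (fun _ => d) (fun j _ => hq j)
      simpa [τ] using this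
    · have := (hp i).mul
        (IsHomogeneous.prod (Finset.univ.erase i) q (fun _ => d) (fun j _ => hq j))
      have e1 : d + ∑ j ∈ Finset.univ.erase i, d = N * d := by
        rw [Finset.sum_const, Finset.card_erase_of_mem (Finset.mem_univ i), Finset.card_univ,
          Fintype.card_fin, smul_eq_mul]
        have : 0 < N := i.pos
        obtain ⟨n, rfl⟩ : ∃ n, N = n + 1 := ⟨N - 1, by omega⟩
        simp; ring
      rw [e1] at this
      simpa [τ] using this
  obtain ⟨h, g, e, hh, hg, hgi⟩ := exists_reduced (N * d) τ hτ ⟨0, hprod0⟩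
  have hg0 : g 0 ≠ 0 := by
    intro h0
    apply hprod0
    have := hgi 0
    rw [h0, mul_zero] at this
    exact this
  refine ⟨g, e, hg, hg0, fun i => ?_⟩
  have h1 : inc (g i.succ) / inc (g 0) = inc (τ i.succ) / inc (τ 0) := by
    rw [hgi, hgi, map_mul, map_mul, mul_div_mul_left _ _ (inc_ne hh)]
  rw [h1, hpq i]
  have e2 : τ i.succ = p i * ∏ j ∈ Finset.univ.erase i, q j := rfl
  have e3 : τ 0 = q i * ∏ j ∈ Finset.univ.erase i, q j :=
    (Finset.mul_prod_erase Finset.univ q (Finset.mem_univ i)).symm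
  have h2 : (∏ j ∈ Finset.univ.erase i, q j) ≠ 0 := Finset.prod_ne_zero_iff.2 fun j _ => hq0 j
  rw [e2, e3, map_mul, map_mul, mul_div_mul_right _ _ (inc_ne h2)]

end tuple

/-- `a` is a quotient of homogeneous polynomials of some common degree -/
def HasRep {σ : Type*} (a : QF σ K) : Prop := ∃ d, Rep a d

section hasrep

variable {σ : Type*} {a b : QF σ K}

theorem HasRep.add (ha : HasRep a) (hb : HasRep b) : HasRep (a + b) :=
  ⟨_, ha.choose_spec.add hb.choose_spec⟩
theorem HasRep.sub (ha : HasRep a) (hb : HasRep b) : HasRep (a - b) :=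
  ⟨_, ha.choose_spec.sub hb.choose_spec⟩
theorem HasRep.mul (ha : HasRep a) (hb : HasRep b) : HasRep (a * b) :=
  ⟨_, ha.choose_spec.mul hb.choose_spec⟩
theorem HasRep.div (ha : HasRep a) (hb : HasRep b) : HasRep (a / b) :=
  ⟨_, ha.choose_spec.div hb.choose_spec⟩
theorem HasRep.neg (ha : HasRep a) : HasRep (-a) := ⟨_, ha.choose_spec.neg⟩
theorem HasRep.sq (ha : HasRep a) : HasRep (a ^ 2) := ⟨_, ha.choose_spec.sq⟩
theorem HasRep.cube (ha : HasRep a) : HasRep (a ^ 3) := ⟨_, ha.choose_spec.cube⟩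
theorem HasRep.one : HasRep (1 : QF σ K) := ⟨_, Rep.one⟩
theorem HasRep.two : HasRep (2 : QF σ K) := by
  have := (HasRep.one (K := K) (σ := σ)).add HasRep.one
  rwa [one_add_one_eq_two] at this

end hasrep

theorem hasRep_tt (i : Fin (3 + 1)) : HasRep (tt K i) := ⟨1, Rep.ratio i 0⟩

theorem hasRep_gs : HasRep (gs K) :=
  ((((HasRep.one.sub (hasRep_tt 1).cube).mul (hasRep_tt 3).sq).sub
    ((HasRep.two.mul (HasRep.one.sub (hasRep_tt 1).cube)).mul (hasRep_tt 3))).add
      (HasRep.one.sub (hasRep_tt 2).cube)).div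
    (((HasRep.one.sub (hasRep_tt 1).cube).mul (hasRep_tt 3).sq).sub
      (HasRep.one.sub (hasRep_tt 2).cube))

theorem hasRep_gr : HasRep (gr K) :=
  HasRep.one.add ((hasRep_tt 3).mul (hasRep_gs.sub HasRep.one))

theorem hasRep_gk : HasRep (gk K) :=
  (HasRep.one.sub (hasRep_tt 1).cube).div (HasRep.one.sub hasRep_gs.sq)

theorem hasRep_addA {a b a' b' : QF (Fin (3 + 1)) K} (ha : HasRep a) (hb : HasRep b)
    (ha' : HasRep a') (hb' : HasRep b') : HasRep (addA (gk K) a b a' b') :=
  ((hasRep_gk.mul ((hb.sub hb').div (ha.sub ha')).sq).sub ha).sub ha'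

theorem hasRep_addB {a b a' b' : QF (Fin (3 + 1)) K} (ha : HasRep a) (hb : HasRep b)
    (ha' : HasRep a') (hb' : HasRep b') : HasRep (addB (gk K) a b a' b') :=
  (hb.add (((hb.sub hb').div (ha.sub ha')).mul ((hasRep_addA ha hb ha' hb').sub ha))).neg

theorem hasRep_l1 : HasRep (l1 K) :=
  ((hasRep_addB (hasRep_tt 2) hasRep_gr (hasRep_tt 1) hasRep_gs).sub HasRep.one).div
    ((hasRep_addB (hasRep_tt 1) hasRep_gs HasRep.one HasRep.one).sub HasRep.one)

/-- the homogeneous form of a polynomial evaluated at the affine coordinates -/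
theorem aeval_tt {p : MvPolynomial (Fin (3 + 1)) K} {e : ℕ} (hp : p.IsHomogeneous e) :
    inc p = inc (X 0) ^ e * aeval (tt K) p := by
  have hX : (inc (X 0 : MvPolynomial (Fin (3 + 1)) K)) ≠ 0 := inc_ne (X_ne_zero _)
  have h1 : inc p = aeval (fun i => inc (X i : MvPolynomial (Fin (3 + 1)) K)) p := by
    rw [aeval_def, eval₂_eq, p.as_sum, map_sum]
    rw [← p.as_sum]
    apply Finset.sum_congr rfl
    intro m _
    rw [monomial_eq, map_mul, Finsupp.prod, map_prod]
    congr 1
    apply Finset.prod_congr rfl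
    intro i _
    rw [map_pow]
  have h2 : (fun i => inc (X i : MvPolynomial (Fin (3 + 1)) K)) =
      fun i => inc (X 0) * tt K i := by
    funext i
    rw [tt]; field_simp
  rw [h1, h2, aeval_def, aeval_def, eval₂_eq, eval₂_eq, Finset.mul_sum]
  apply Finset.sum_congr rfl
  intro m hm
  have h3 : ∑ i ∈ m.support, m i = e := by
    have h4 := hp (mem_support_iff.1 hm)
    have h5 : m.degree = e := by rw [← h4, Finsupp.degree_eq_weight_one]; rfl
    rw [← h5, Finsupp.degree_apply]
  simp_rw [mul_pow]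
  rw [Finset.prod_mul_distrib, Finset.prod_pow_eq_pow_sum, h3]
  ring

theorem dominant_of (h6 : (6 : K) ≠ 0) {f : Fin (3 + 1) → MvPolynomial (Fin (3 + 1)) K} {e : ℕ}
    (hf : IsReduced f e) (hf0 : f 0 ≠ 0) (h1 : inc (f 1) / inc (f 0) = v1 K)
    (h2 : inc (f 2) / inc (f 0) = w1 K) (h3 : inc (f 3) / inc (f 0) = l1 K) : Dominant f := by
  let x : Fin (3 + 1) → QF (Fin (3 + 1)) K := fun i => inc (f i)
  let E := IntermediateField.adjoin K (Set.range x)
  have hx : ∀ i, x i ∈ E := fun i => IntermediateField.subset_adjoin K _ ⟨i, rfl⟩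
  have one : (1 : QF (Fin (3 + 1)) K) ∈ E := E.one_mem
  have two : (2 : QF (Fin (3 + 1)) K) ∈ E := by
    have := E.add_mem one one
    rwa [one_add_one_eq_two] at this
  have hv1 : v1 K ∈ E := by rw [← h1]; exact E.div_mem (hx 1) (hx 0)
  have hw1 : w1 K ∈ E := by rw [← h2]; exact E.div_mem (hx 2) (hx 0)
  have hl1 : l1 K ∈ E := by rw [← h3]; exact E.div_mem (hx 3) (hx 0)
  have hA : ∀ {κ a b a' b'}, κ ∈ E → a ∈ E → b ∈ E → a' ∈ E → b' ∈ E →
      addA κ a b a' b' ∈ E := by
    intro κ a b a' b' h1 h2 h3 h4 h5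
    exact E.sub_mem (E.sub_mem (E.mul_mem h1
      (pow_mem (E.div_mem (E.sub_mem h3 h5) (E.sub_mem h2 h4)) 2)) h2) h4
  have hB : ∀ {κ a b a' b'}, κ ∈ E → a ∈ E → b ∈ E → a' ∈ E → b' ∈ E →
      addB κ a b a' b' ∈ E := by
    intro κ a b a' b' h1 h2 h3 h4 h5
    exact E.neg_mem (E.add_mem h3 (E.mul_mem (E.div_mem (E.sub_mem h3 h5) (E.sub_mem h2 h4))
      (E.sub_mem (hA h1 h2 h3 h4 h5) h2)))
  have hs1 : s1 K ∈ E := by
    rw [← sFun_step h6, sFun]
    have e1 : 1 - v1 K ^ 3 ∈ E := E.sub_mem one (pow_mem hv1 3)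
    have e2 : 1 - w1 K ^ 3 ∈ E := E.sub_mem one (pow_mem hw1 3)
    exact E.div_mem (E.add_mem (E.sub_mem (E.mul_mem e1 (pow_mem hl1 2))
      (E.mul_mem (E.mul_mem two e1) hl1)) e2) (E.sub_mem (E.mul_mem e1 (pow_mem hl1 2)) e2)
  have hr1 : r1 K ∈ E := by
    rw [← r1_step h6]
    exact E.add_mem one (E.mul_mem hl1 (E.sub_mem hs1 one))
  have hk : gk K ∈ E := by
    rw [← gk_step h6]
    exact E.div_mem (E.sub_mem one (pow_mem hv1 3)) (E.sub_mem one (pow_mem hs1 2))
  obtain ⟨-, -, i1, i2, i3, i4⟩ := step_data h6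
  have hv : tt K 1 ∈ E := by rw [i1]; exact hA hk hv1 hs1 one (E.neg_mem one)
  have hs : gs K ∈ E := by rw [i2]; exact hB hk hv1 hs1 one (E.neg_mem one)
  have hw : tt K 2 ∈ E := by rw [i3]; exact hA hk hw1 hr1 hv (E.neg_mem hs)
  have hr : gr K ∈ E := by rw [i4]; exact hB hk hw1 hr1 hv (E.neg_mem hs)
  have hl : tt K 3 ∈ E := by
    have h4 := sub_ne_zero.2 (gs_ne_one h6)
    have : tt K 3 = (gr K - 1) / (gs K - 1) := by
      rw [gr]; field_simp; ring
    rw [this]
    exact E.div_mem (E.sub_mem hr one) (E.sub_mem hs one)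
  have htt : ∀ i, tt K i ∈ E := by
    intro i
    fin_cases i
    · have : tt K 0 = 1 := div_self (inc_ne (X_ne_zero _))
      change tt K 0 ∈ E
      rw [this]; exact one
    · exact hv
    · exact hw
    · exact hl
  have hpoly : ∀ p : MvPolynomial (Fin (3 + 1)) K, aeval (tt K) p ∈ E := by
    intro p
    have : aeval (tt K) p ∈ (Algebra.adjoin K (Set.range (tt K))) := by
      rw [Algebra.adjoin_range_eq_range_aeval]
      exact ⟨p, rfl⟩
    have h5 : Algebra.adjoin K (Set.range (tt K)) ≤ E.toSubalgebra := by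
      apply Algebra.adjoin_le
      rintro _ ⟨i, rfl⟩
      exact htt i
    exact h5 this
  have hX : (inc (X 0 : MvPolynomial (Fin (3 + 1)) K)) ≠ 0 := inc_ne (X_ne_zero _)
  have hpow : (inc (X 0 : MvPolynomial (Fin (3 + 1)) K)) ^ e ∈ E := by
    have h4 := aeval_tt (hf.1 0)
    have h5 : aeval (tt K) (f 0) ≠ 0 := by
      intro h0
      rw [h0, mul_zero] at h4
      exact inc_ne hf0 h4
    have h6' : (inc (X 0 : MvPolynomial (Fin (3 + 1)) K)) ^ e = x 0 / aeval (tt K) (f 0) := by
      rw [eq_div_iff h5]; exact h4.symm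
    rw [h6']
    exact E.div_mem (hx 0) (hpoly _)
  have he : e ≠ 0 := by
    rintro rfl
    have hc : ∀ i, ∃ c, f i = C c := by
      intro i
      have h4 := (hf.1 i).totalDegree_le
      exact ⟨_, totalDegree_eq_zero_iff_eq_C.1 (by omega)⟩
    have hE : E ≤ ⊥ := by
      apply IntermediateField.adjoin_le_iff.2
      rintro _ ⟨i, rfl⟩
      obtain ⟨c, hc⟩ := hc i
      change inc (f i) ∈ (⊥ : IntermediateField K (QF (Fin (3 + 1)) K))
      rw [hc]
      rw [IntermediateField.mem_bot]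
      exact ⟨c, IsScalarTower.algebraMap_apply K (MvPolynomial (Fin (3 + 1)) K) _ c⟩
    have h4 := hE hv
    rw [IntermediateField.mem_bot] at h4
    obtain ⟨c, hc⟩ := h4
    rw [tt, eq_div_iff hX, IsScalarTower.algebraMap_apply K (MvPolynomial (Fin (3 + 1)) K),
      ← map_mul] at hc
    have h5 := inc_inj hc
    have h7 := congrArg (eval (fun i : Fin (3 + 1) => if i = 0 then (0 : K) else 1)) h5
    simp at h7
  -- everything is algebraic over `E`
  have halg0 : IsAlgebraic E (inc (X 0 : MvPolynomial (Fin (3 + 1)) K)) := by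
    apply IsAlgebraic.of_pow (n := e) (by omega)
    exact isAlgebraic_algebraMap (⟨_, hpow⟩ : E)
  have halg : Algebra.IsAlgebraic E (QF (Fin (3 + 1)) K) := by
    have hi : ∀ i, IsAlgebraic E (inc (X i : MvPolynomial (Fin (3 + 1)) K)) := by
      intro i
      have : inc (X i : MvPolynomial (Fin (3 + 1)) K) = tt K i * inc (X 0) := by
        rw [tt]; field_simp
      rw [this]
      exact (isAlgebraic_algebraMap (⟨_, htt i⟩ : E)).mul halg0
    have hp : ∀ p : MvPolynomial (Fin (3 + 1)) K, IsAlgebraic E (inc p) := by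
      intro p
      induction p using MvPolynomial.induction_on with
      | C c =>
        have : inc (C c : MvPolynomial (Fin (3 + 1)) K) =
            algebraMap E (QF (Fin (3 + 1)) K) (algebraMap K E c) := by
          rw [← IsScalarTower.algebraMap_apply K E]
          exact (IsScalarTower.algebraMap_apply K (MvPolynomial (Fin (3 + 1)) K) _ c).symm
        rw [this]
        exact isAlgebraic_algebraMap _
      | add p q hp hq => rw [map_add]; exact hp.add hq
      | mul_X p i hp => rw [map_mul]; exact hp.mul (hi i)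
    constructor
    intro a
    obtain ⟨p, q, hq, rfl⟩ := IsFractionRing.div_surjective (A := MvPolynomial (Fin (3 + 1)) K) a
    rw [div_eq_mul_inv]
    exact (hp p).mul (hp q).inv
  have halg' : Algebra.IsAlgebraic (Algebra.adjoin K (Set.range x)) (QF (Fin (3 + 1)) K) :=
    IntermediateField.isAlgebraic_adjoin_iff_top.1 halg
  have hcard : Cardinal.lift.{u_1} (Cardinal.mk (Fin (3 + 1))) ≤
      Cardinal.lift.{0} (Algebra.trdeg K (QF (Fin (3 + 1)) K)) := by
    have : AlgebraicIndependent K (fun i => inc (X i : MvPolynomial (Fin (3 + 1)) K)) := by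
      have h4 := (algebraicIndependent_X (Fin (3 + 1)) K).map' (f := IsScalarTower.toAlgHom K
        (MvPolynomial (Fin (3 + 1)) K) (QF (Fin (3 + 1)) K)) inc_inj
      exact h4
    exact this.lift_cardinalMk_le_trdeg
  have hb := Algebra.IsAlgebraic.isTranscendenceBasis_of_lift_le_trdeg_of_finite K x hcard
  have h7 : AlgebraicIndependent K x := hb.1
  have h8 : x = (IsScalarTower.toAlgHom K (MvPolynomial (Fin (3 + 1)) K)
    (QF (Fin (3 + 1)) K)) ∘ f := rfl
  rw [h8] at h7
  exact (AlgHom.algebraicIndependent_iff _ inc_inj).1 h7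

/-- the self-map -/
theorem exists_map (h6 : (6 : K) ≠ 0) :
    ∃ (f : Fin (3 + 1) → MvPolynomial (Fin (3 + 1)) K) (e : ℕ), IsReduced f e ∧ Dominant f ∧
      inc (f 1) / inc (f 0) = v1 K ∧ inc (f 2) / inc (f 0) = w1 K ∧
      inc (f 3) / inc (f 0) = l1 K := by
  obtain ⟨d1, h1⟩ := hasRep_addA (K := K) (hasRep_tt 1) hasRep_gs HasRep.one HasRep.one
  obtain ⟨d2, h2⟩ := hasRep_addA (K := K) (hasRep_tt 2) hasRep_gr (hasRep_tt 1) hasRep_gs
  obtain ⟨d3, h3⟩ := hasRep_l1 (K := K)
  obtain ⟨f, e, hf, hf0, hfi⟩ := exists_tuple ![v1 K, w1 K, l1 K] (d1 + d2 + d3) (by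
    intro i
    fin_cases i
    · exact h1.mono (by omega)
    · exact h2.mono (by omega)
    · exact h3.mono (by omega))
  have e1 := hfi 0
  have e2 := hfi 1
  have e3 := hfi 2
  exact ⟨f, e, hf, dominant_of h6 hf hf0 e1 e2 e3, e1, e2, e3⟩

end Pool.Agent.V1156.Dgr
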