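import Pool.Agent.V1156.Dgr.Curve

/-! Repeated duplication of the generic point of `y ^ 2 = x ^ 3 + 1`. -/

set_option autoImplicit false
set_option linter.unusedSectionVars false

namespace Pool.Agent.V1156.Dgr

open Polynomial

variable (K : Type*) [Field K]

/-- numerator and denominator of the `x`-coordinate of `2 ^ k` times the generic point -/
noncomputable def pq : ℕ → K[X] × K[X]
  | 0 => (X, 1)
  | k + 1 => ((pq k).1 * ((pq k).1 ^ 3 - 8 * (pq k).2 ^ 3),
      4 * (pq k).2 * ((pq k).1 ^ 3 + (pq k).2 ^ 3))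

/-- numerator -/
noncomputable def pp (k : ℕ) : K[X] := (pq K k).1
/-- denominator -/
noncomputable def qq (k : ℕ) : K[X] := (pq K k).2

theorem pp_succ (k : ℕ) : pp K (k + 1) = pp K k * (pp K k ^ 3 - 8 * qq K k ^ 3) := rfl
theorem qq_succ (k : ℕ) : qq K (k + 1) = 4 * qq K k * (pp K k ^ 3 + qq K k ^ 3) := rfl

variable {K}

theorem two_ne (h6 : (6 : K) ≠ 0) : (2 : K) ≠ 0 := by
  intro h
  apply h6
  have : (6 : K) = 2 * 3 := by norm_num
  rw [this, h, zero_mul]

theorem three_ne (h6 : (6 : K) ≠ 0) : (3 : K) ≠ 0 := by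
  intro h
  apply h6
  have : (6 : K) = 2 * 3 := by norm_num
  rw [this, h, mul_zero]

theorem isUnit_num {n : ℕ} (h : (n : K) ≠ 0) : IsUnit ((n : K[X])) := by
  have : (n : K[X]) = C (n : K) := by simp
  rw [this]
  exact (isUnit_C).2 (isUnit_iff_ne_zero.2 h)

theorem coprime_step {p q : K[X]} (h6 : (6 : K) ≠ 0) (h : IsCoprime p q) :
    IsCoprime (p * (p ^ 3 - 8 * q ^ 3)) (4 * q * (p ^ 3 + q ^ 3)) := by
  have h2 := two_ne h6
  have h3 := three_ne h6
  have h4 : IsUnit (4 : K[X]) := by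
    have : ((4 : ℕ) : K) ≠ 0 := by
      have : ((4 : ℕ) : K) = 2 * 2 := by norm_num
      rw [this]; exact mul_ne_zero h2 h2
    exact_mod_cast isUnit_num this
  have h9 : IsUnit (9 : K[X]) := by
    have : ((9 : ℕ) : K) ≠ 0 := by
      have : ((9 : ℕ) : K) = 3 * 3 := by norm_num
      rw [this]; exact mul_ne_zero h3 h3
    exact_mod_cast isUnit_num this
  have ha : IsCoprime p (p ^ 3 + q ^ 3) := by
    have : IsCoprime p (q ^ 3 + p * p ^ 2) := (h.pow_right (n := 3)).add_mul_left_right _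
    have e : p ^ 3 + q ^ 3 = q ^ 3 + p * p ^ 2 := by ring
    rwa [e]
  have hb : IsCoprime (p ^ 3 - 8 * q ^ 3) q := by
    have : IsCoprime (p ^ 3 + q * (-8 * q ^ 2)) q := (h.pow_left (m := 3)).add_mul_left_left _
    have e : p ^ 3 - 8 * q ^ 3 = p ^ 3 + q * (-8 * q ^ 2) := by ring
    rwa [e]
  have hc : IsCoprime (p ^ 3 - 8 * q ^ 3) (p ^ 3 + q ^ 3) := by
    have h5 : IsCoprime (p ^ 3 - 8 * q ^ 3) (9 * q ^ 3) :=
      (isCoprime_mul_unit_left_right h9 _ _).2 (hb.pow_right)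
    have : IsCoprime (p ^ 3 - 8 * q ^ 3) (9 * q ^ 3 + (p ^ 3 - 8 * q ^ 3) * 1) :=
      h5.add_mul_left_right _
    have e : p ^ 3 + q ^ 3 = 9 * q ^ 3 + (p ^ 3 - 8 * q ^ 3) * 1 := by ring
    rwa [e]
  apply IsCoprime.mul_left
  · apply IsCoprime.mul_right _ ha
    exact (isCoprime_mul_unit_left_right h4 _ _).2 h
  · apply IsCoprime.mul_right _ hc
    exact (isCoprime_mul_unit_left_right h4 _ _).2 hb

theorem inv_pq (h6 : (6 : K) ≠ 0) (k : ℕ) : IsCoprime (pp K k) (qq K k) ∧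
    (pp K k).natDegree ≤ 4 ^ k ∧ (qq K k).natDegree ≤ 4 ^ k ∧
    ((pp K k).coeff (4 ^ k) ≠ 0 ∨ (qq K k).coeff (4 ^ k) ≠ 0) := by
  have h2 := two_ne h6
  have h3 := three_ne h6
  induction k with
  | zero =>
    refine ⟨?_, ?_, ?_, ?_⟩
    · exact isCoprime_one_right
    · simp [pp, pq]
    · simp [qq, pq]
    · left; simp [pp, pq]
  | succ k ih =>
    obtain ⟨hc, hp, hq, hne⟩ := ih
    have e4 : 4 ^ (k + 1) = 4 ^ k + 3 * 4 ^ k := by ring
    have hC8 : (8 * qq K k ^ 3) = C (8 : K) * qq K k ^ 3 := by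
      rw [show (C (8 : K)) = (8 : K[X]) from map_ofNat C 8]
    have hC4 : (4 * qq K k) = C (4 : K) * qq K k := by
      rw [show (C (4 : K)) = (4 : K[X]) from map_ofNat C 4]
    have hp3 : (pp K k ^ 3).natDegree ≤ 3 * 4 ^ k :=
      natDegree_pow_le.trans (Nat.mul_le_mul_left _ hp)
    have hq3 : (qq K k ^ 3).natDegree ≤ 3 * 4 ^ k :=
      natDegree_pow_le.trans (Nat.mul_le_mul_left _ hq)
    have h8 : (8 * qq K k ^ 3).natDegree ≤ 3 * 4 ^ k := by
      rw [hC8]
      exact (natDegree_C_mul_le _ _).trans hq3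
    have h4q : (4 * qq K k).natDegree ≤ 4 ^ k := by
      rw [hC4]
      exact (natDegree_C_mul_le _ _).trans hq
    have ha : (pp K k ^ 3 - 8 * qq K k ^ 3).natDegree ≤ 3 * 4 ^ k := 
      (natDegree_sub_le_of_le hp3 h8).trans (max_self _).le
    have hb : (pp K k ^ 3 + qq K k ^ 3).natDegree ≤ 3 * 4 ^ k := natDegree_add_le_of_degree_le hp3 hq3
    refine ⟨?_, ?_, ?_, ?_⟩
    · rw [pp_succ, qq_succ]; exact coprime_step h6 hc
    · rw [pp_succ, e4]; exact natDegree_mul_le_of_le hp ha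
    · rw [qq_succ, e4]; exact natDegree_mul_le_of_le h4q hb
    · have cp3 : (pp K k ^ 3).coeff (3 * 4 ^ k) = (pp K k).coeff (4 ^ k) ^ 3 :=
        coeff_pow_of_natDegree_le hp
      have cq3 : (qq K k ^ 3).coeff (3 * 4 ^ k) = (qq K k).coeff (4 ^ k) ^ 3 :=
        coeff_pow_of_natDegree_le hq
      have c8 : (8 * qq K k ^ 3).coeff (3 * 4 ^ k) = 8 * (qq K k).coeff (4 ^ k) ^ 3 := by
        rw [hC8, coeff_C_mul, cq3]
      have c4 : (4 * qq K k).coeff (4 ^ k) = 4 * (qq K k).coeff (4 ^ k) := by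
        rw [hC4, coeff_C_mul]
      have e1 : (pp K (k + 1)).coeff (4 ^ (k + 1)) = (pp K k).coeff (4 ^ k) *
          ((pp K k).coeff (4 ^ k) ^ 3 - 8 * (qq K k).coeff (4 ^ k) ^ 3) := by
        rw [pp_succ, e4, coeff_mul_add_eq_of_natDegree_le hp ha, coeff_sub, cp3, c8]
      have e2 : (qq K (k + 1)).coeff (4 ^ (k + 1)) = 4 * (qq K k).coeff (4 ^ k) *
          ((pp K k).coeff (4 ^ k) ^ 3 + (qq K k).coeff (4 ^ k) ^ 3) := by
        rw [qq_succ, e4, coeff_mul_add_eq_of_natDegree_le h4q hb, coeff_add, cp3, cq3, c4]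
      rw [e1, e2]
      generalize (pp K k).coeff (4 ^ k) = a at hne ⊢
      generalize (qq K k).coeff (4 ^ k) = b at hne ⊢
      by_contra hcon
      push Not at hcon
      obtain ⟨h7, h8⟩ := hcon
      have h40 : (4 : K) ≠ 0 := by
        have : (4 : K) = 2 * 2 := by norm_num
        rw [this]; exact mul_ne_zero h2 h2
      have h9 : b * (a ^ 3 + b ^ 3) = 0 := by
        rcases mul_eq_zero.1 h8 with h10 | h10
        · rcases mul_eq_zero.1 h10 with h11 | h11
          · exact absurd h11 h40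
          · rw [h11, zero_mul]
        · rw [h10, mul_zero]
      have hb0 : b = 0 := by
        rcases mul_eq_zero.1 h7 with h10 | h10
        · rw [h10] at h9
          have : b ^ 4 = 0 := by linear_combination h9
          exact pow_eq_zero_iff (by norm_num) |>.1 this
        · have : (3 * 3) * b ^ 4 = 0 := by linear_combination h9 - b * h10
          rcases mul_eq_zero.1 this with h11 | h11
          · exact absurd h11 (mul_ne_zero h3 h3)
          · exact pow_eq_zero_iff (by norm_num) |>.1 h11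
      have ha0 : a = 0 := by
        rw [hb0] at h7
        have : a ^ 4 = 0 := by linear_combination h7
        exact pow_eq_zero_iff (by norm_num) |>.1 this
      rcases hne with h | h
      · exact h ha0
      · exact h hb0

theorem coeff_zero_of_unit {p : K[X]} (h : IsUnit p) (k : ℕ) : p.coeff (4 ^ k) = 0 := by
  apply coeff_eq_zero_of_natDegree_lt
  rw [natDegree_eq_zero_of_isUnit h]
  positivity

theorem qq_ne_zero (h6 : (6 : K) ≠ 0) (k : ℕ) : qq K k ≠ 0 := by
  obtain ⟨hc, hp, hq, hne⟩ := inv_pq h6 k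
  intro h0
  rw [h0, isCoprime_zero_right] at hc
  rcases hne with h | h
  · exact h (coeff_zero_of_unit hc k)
  · rw [h0] at h; simp at h

theorem sum_ne_zero (h6 : (6 : K) ≠ 0) (k : ℕ) : pp K k ^ 3 + qq K k ^ 3 ≠ 0 := by
  intro h0
  apply qq_ne_zero h6 (k + 1)
  rw [qq_succ, h0, mul_zero]

end Pool.Agent.V1156.Dgr
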