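import Mathlib

/-! Quotients of homogeneous polynomials of the same degree, and values of rational functions. -/

set_option autoImplicit false
set_option linter.unusedSectionVars false

namespace Pool.Agent.V1156.Dgr

open MvPolynomial

variable {σ : Type*} {K : Type*} [Field K]

/-- the field of fractions of the polynomial ring -/
abbrev QF (σ : Type*) (K : Type*) [Field K] : Type _ := FractionRing (MvPolynomial σ K)

/-- the inclusion of the polynomial ring -/
noncomputable abbrev inc : MvPolynomial σ K →+* QF σ K := algebraMap (MvPolynomial σ K) (QF σ K)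

theorem inc_inj : Function.Injective (inc (σ := σ) (K := K)) := IsFractionRing.injective _ _

theorem inc_ne {p : MvPolynomial σ K} (h : p ≠ 0) : inc p ≠ 0 :=
  fun h' => h (inc_inj (by rw [h', map_zero]))

/-- `a` is a quotient of two homogeneous polynomials of degree `d` -/
def Rep (a : QF σ K) (d : ℕ) : Prop :=
  ∃ p q : MvPolynomial σ K, p.IsHomogeneous d ∧ q.IsHomogeneous d ∧ q ≠ 0 ∧ a = inc p / inc q

theorem Rep.const (c : K) : Rep (σ := σ) (algebraMap K (QF σ K) c) 0 := by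
  refine ⟨C c, 1, isHomogeneous_C _ _, isHomogeneous_one _ _, one_ne_zero, ?_⟩
  rw [map_one, div_one]
  exact IsScalarTower.algebraMap_apply K (MvPolynomial σ K) (QF σ K) c

theorem Rep.zero : Rep (0 : QF σ K) 0 := by
  simpa using Rep.const (σ := σ) (0 : K)

theorem Rep.one : Rep (1 : QF σ K) 0 := by
  simpa using Rep.const (σ := σ) (1 : K)

theorem Rep.ratio (i j : σ) : Rep (inc (X i : MvPolynomial σ K) / inc (X j)) 1 :=
  ⟨X i, X j, isHomogeneous_X _ _, isHomogeneous_X _ _, X_ne_zero _, rfl⟩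

theorem Rep.add {a b : QF σ K} {d e : ℕ} (ha : Rep a d) (hb : Rep b e) : Rep (a + b) (d + e) := by
  obtain ⟨p, q, hp, hq, hq0, rfl⟩ := ha
  obtain ⟨p', q', hp', hq', hq0', rfl⟩ := hb
  refine ⟨p * q' + q * p', q * q', (hp.mul hq').add (hq.mul hp'), hq.mul hq',
    mul_ne_zero hq0 hq0', ?_⟩
  rw [map_add, map_mul, map_mul, map_mul]
  have h1 := inc_ne hq0
  have h2 := inc_ne hq0'
  field_simp

theorem Rep.mul {a b : QF σ K} {d e : ℕ} (ha : Rep a d) (hb : Rep b e) : Rep (a * b) (d + e) := by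
  obtain ⟨p, q, hp, hq, hq0, rfl⟩ := ha
  obtain ⟨p', q', hp', hq', hq0', rfl⟩ := hb
  refine ⟨p * p', q * q', hp.mul hp', hq.mul hq', mul_ne_zero hq0 hq0', ?_⟩
  rw [map_mul, map_mul]
  have h1 := inc_ne hq0
  have h2 := inc_ne hq0'
  field_simp

theorem Rep.neg {a : QF σ K} {d : ℕ} (ha : Rep a d) : Rep (-a) d := by
  obtain ⟨p, q, hp, hq, hq0, rfl⟩ := ha
  exact ⟨-p, q, hp.neg, hq, hq0, by rw [map_neg, neg_div]⟩

theorem Rep.sub {a b : QF σ K} {d e : ℕ} (ha : Rep a d) (hb : Rep b e) : Rep (a - b) (d + e) := by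
  rw [sub_eq_add_neg]
  exact ha.add hb.neg

theorem Rep.inv {a : QF σ K} {d : ℕ} (ha : Rep a d) : Rep a⁻¹ d := by
  obtain ⟨p, q, hp, hq, hq0, rfl⟩ := ha
  by_cases h : p = 0
  · subst h
    exact ⟨0, q, isHomogeneous_zero _ _ _, hq, hq0, by simp⟩
  · exact ⟨q, p, hq, hp, h, by rw [inv_div]⟩

theorem Rep.div {a b : QF σ K} {d e : ℕ} (ha : Rep a d) (hb : Rep b e) : Rep (a / b) (d + e) := by
  rw [div_eq_mul_inv]
  exact ha.mul hb.inv

theorem Rep.mono [Nonempty σ] {a : QF σ K} {d e : ℕ} (ha : Rep a d) (h : d ≤ e) : Rep a e := by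
  obtain ⟨p, q, hp, hq, hq0, rfl⟩ := ha
  obtain ⟨i⟩ := ‹Nonempty σ›
  obtain ⟨k, rfl⟩ := Nat.exists_eq_add_of_le h
  have hX : (X i ^ k : MvPolynomial σ K).IsHomogeneous k := by
    simpa using (isHomogeneous_X K i).pow k
  have hX0 : (X i ^ k : MvPolynomial σ K) ≠ 0 := pow_ne_zero _ (X_ne_zero _)
  refine ⟨p * X i ^ k, q * X i ^ k, hp.mul hX, hq.mul hX, mul_ne_zero hq0 hX0, ?_⟩
  rw [map_mul inc p, map_mul inc q, mul_div_mul_right _ _ (inc_ne hX0)]

theorem Rep.sq {a : QF σ K} {d : ℕ} (ha : Rep a d) : Rep (a ^ 2) (2 * d) := by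
  rw [pow_two, two_mul]
  exact ha.mul ha

theorem Rep.cube {a : QF σ K} {d : ℕ} (ha : Rep a d) : Rep (a ^ 3) (3 * d) := by
  have h1 : a ^ 3 = a ^ 2 * a := by ring
  have h2 : 3 * d = 2 * d + d := by ring
  rw [h1, h2]
  exact ha.sq.mul ha

section val

variable {M : Type*} [Field M] (γ : MvPolynomial σ K →+* M)

/-- the rational function `a` has the value `b` under the specialisation `γ` -/
def Val (a : QF σ K) (b : M) : Prop :=
  ∃ p q : MvPolynomial σ K, γ q ≠ 0 ∧ a = inc p / inc q ∧ b = γ p / γ q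

variable {γ}

theorem ne_of_val {q : MvPolynomial σ K} (h : γ q ≠ 0) : inc q ≠ 0 := by
  apply inc_ne
  rintro rfl
  exact h (map_zero γ)

theorem Val.poly (p : MvPolynomial σ K) : Val γ (inc p) (γ p) :=
  ⟨p, 1, by rw [map_one]; exact one_ne_zero, by rw [map_one, div_one], by rw [map_one, div_one]⟩

theorem Val.congr {a a' : QF σ K} {b b' : M} (h : Val γ a b) (ha : a = a') (hb : b = b') :
    Val γ a' b' := by
  subst ha hb
  exact h

theorem Val.nat (n : ℕ) : Val γ (n : QF σ K) (n : M) :=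
  (Val.poly (γ := γ) (n : MvPolynomial σ K)).congr (map_natCast _ _) (map_natCast _ _)

theorem Val.zero : Val γ (0 : QF σ K) (0 : M) :=
  (Val.poly (γ := γ) 0).congr (map_zero _) (map_zero _)

theorem Val.one : Val γ (1 : QF σ K) (1 : M) :=
  (Val.poly (γ := γ) 1).congr (map_one _) (map_one _)

theorem Val.add {a a' : QF σ K} {b b' : M} (h : Val γ a b) (h' : Val γ a' b') :
    Val γ (a + a') (b + b') := by
  obtain ⟨p, q, hq, rfl, rfl⟩ := h
  obtain ⟨p', q', hq', rfl, rfl⟩ := h'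
  have h1 := ne_of_val hq
  have h2 := ne_of_val hq'
  refine ⟨p * q' + q * p', q * q', by rw [map_mul]; exact mul_ne_zero hq hq', ?_, ?_⟩
  · simp only [map_add, map_mul]; field_simp
  · simp only [map_add, map_mul]; field_simp

theorem Val.mul {a a' : QF σ K} {b b' : M} (h : Val γ a b) (h' : Val γ a' b') :
    Val γ (a * a') (b * b') := by
  obtain ⟨p, q, hq, rfl, rfl⟩ := h
  obtain ⟨p', q', hq', rfl, rfl⟩ := h'
  have h1 := ne_of_val hq
  have h2 := ne_of_val hq'
  refine ⟨p * p', q * q', by rw [map_mul]; exact mul_ne_zero hq hq', ?_, ?_⟩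
  · simp only [map_mul]; field_simp
  · simp only [map_mul]; field_simp

theorem Val.neg {a : QF σ K} {b : M} (h : Val γ a b) : Val γ (-a) (-b) := by
  have := (Val.poly (γ := γ) (-1)).mul h
  exact this.congr (by simp) (by simp)

theorem Val.sub {a a' : QF σ K} {b b' : M} (h : Val γ a b) (h' : Val γ a' b') :
    Val γ (a - a') (b - b') := by
  rw [sub_eq_add_neg, sub_eq_add_neg]
  exact h.add h'.neg

theorem Val.pow {a : QF σ K} {b : M} (h : Val γ a b) (n : ℕ) : Val γ (a ^ n) (b ^ n) := by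
  induction n with
  | zero => exact Val.one.congr (pow_zero _).symm (pow_zero _).symm
  | succ n ih => rw [pow_succ, pow_succ]; exact ih.mul h

theorem Val.inv {a : QF σ K} {b : M} (h : Val γ a b) (hb : b ≠ 0) : Val γ a⁻¹ b⁻¹ := by
  obtain ⟨p, q, hq, rfl, rfl⟩ := h
  refine ⟨q, p, ?_, by rw [inv_div], by rw [inv_div]⟩
  intro h0
  exact hb (by rw [h0, zero_div])

theorem Val.div {a a' : QF σ K} {b b' : M} (h : Val γ a b) (h' : Val γ a' b') (hb : b' ≠ 0) :
    Val γ (a / a') (b / b') := by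
  rw [div_eq_mul_inv, div_eq_mul_inv]
  exact h.mul (h'.inv hb)

theorem Val.ne_zero {a : QF σ K} {b : M} (h : Val γ a b) (hb : b ≠ 0) : a ≠ 0 := by
  obtain ⟨p, q, hq, rfl, rfl⟩ := h
  have h1 := ne_of_val hq
  have h2 : γ p ≠ 0 := fun h0 => hb (by rw [h0, zero_div])
  exact div_ne_zero (ne_of_val h2) h1

theorem Val.ne {a a' : QF σ K} {b b' : M} (h : Val γ a b) (h' : Val γ a' b') (hb : b ≠ b') :
    a ≠ a' := by
  intro h0
  exact (h.sub h').ne_zero (sub_ne_zero.2 hb) (sub_eq_zero.2 h0)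

/-- values can be computed from reduced fractions -/
theorem Val.reduced {a : QF σ K} {b : M} (h : Val γ a b) {A B : MvPolynomial σ K}
    (hAB : IsRelPrime A B) (hB : B ≠ 0) (ha : a = inc A / inc B) : γ B ≠ 0 ∧ b = γ A / γ B := by
  obtain ⟨p, q, hq, h1, rfl⟩ := h
  have hB' := inc_ne hB
  have hq' := ne_of_val hq
  have h2 : A * q = p * B := by
    apply inc_inj
    rw [map_mul, map_mul]
    rw [ha, div_eq_div_iff hB' hq'] at h1
    exact h1
  have h3 : B ∣ q := by
    have : B ∣ A * q := ⟨p, by rw [h2]; ring⟩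
    exact hAB.symm.dvd_of_dvd_mul_left this
  obtain ⟨c, rfl⟩ := h3
  have h4 : γ B ≠ 0 := by
    intro h0
    apply hq
    rw [map_mul, h0, zero_mul]
  have h5 : γ c ≠ 0 := by
    intro h0
    apply hq
    rw [map_mul, h0, mul_zero]
  have h6 : p = A * c := by
    apply mul_right_cancel₀ hB
    rw [← h2]; ring
  refine ⟨h4, ?_⟩
  rw [h6, map_mul, map_mul, mul_div_mul_right _ _ h5]

end val

end Pool.Agent.V1156.Dgr
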