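import Pool.Agent.V1156.Dgr.Rel
import Pool.Agent.V1156.Dgr.Dup
import Pool.Agent.V1156.Dgr.Rat

/-! Values of the rational functions that describe sums of points; the generic configuration. -/

set_option autoImplicit false
set_option linter.unusedSectionVars false

namespace Pool.Agent.V1156.Dgr

open MvPolynomial

section val

variable {σ : Type*} {K : Type*} [Field K] {M : Type*} [Field M] {γ : MvPolynomial σ K →+* M}

theorem Val.addA {κ a b a' b' : QF σ K} {κ₀ a₀ b₀ a₀' b₀' : M} (hκ : Val γ κ κ₀) (ha : Val γ a a₀)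
    (hb : Val γ b b₀) (ha' : Val γ a' a₀') (hb' : Val γ b' b₀') (hne : a₀ ≠ a₀') :
    Val γ (addA κ a b a' b') (addA κ₀ a₀ b₀ a₀' b₀') :=
  ((hκ.mul (((hb.sub hb').div (ha.sub ha') (sub_ne_zero.2 hne)).pow 2)).sub ha).sub ha'

theorem Val.addB {κ a b a' b' : QF σ K} {κ₀ a₀ b₀ a₀' b₀' : M} (hκ : Val γ κ κ₀) (ha : Val γ a a₀)
    (hb : Val γ b b₀) (ha' : Val γ a' a₀') (hb' : Val γ b' b₀') (hne : a₀ ≠ a₀') :
    Val γ (addB κ a b a' b') (addB κ₀ a₀ b₀ a₀' b₀') :=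
  (hb.add (((hb.sub hb').div (ha.sub ha') (sub_ne_zero.2 hne)).mul
    ((Val.addA hκ ha hb ha' hb' hne).sub ha))).neg

theorem Val.two : Val γ (2 : QF σ K) (2 : M) := by
  have := Val.nat (γ := γ) 2
  simpa using this

theorem Val.sFun {v w l : QF σ K} {v₀ w₀ l₀ : M} (hv : Val γ v v₀) (hw : Val γ w w₀)
    (hl : Val γ l l₀) (hne : (1 - v₀ ^ 3) * l₀ ^ 2 - (1 - w₀ ^ 3) ≠ 0) :
    Val γ (sFun v w l) (sFun v₀ w₀ l₀) := by
  have h1 := (Val.one (γ := γ)).sub (hv.pow 3)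
  have h2 := (Val.one (γ := γ)).sub (hw.pow 3)
  exact (((h1.mul (hl.pow 2)).sub ((Val.two.mul h1).mul hl)).add h2).div
    ((h1.mul (hl.pow 2)).sub h2) hne

end val

variable (K : Type*) [Field K]

/-- the affine coordinates -/
noncomputable def tt (i : Fin (3 + 1)) : QF (Fin (3 + 1)) K := inc (X i) / inc (X 0)

/-- second coordinate ratio of the second point -/
noncomputable def gs : QF (Fin (3 + 1)) K := sFun (tt K 1) (tt K 2) (tt K 3)
/-- second coordinate ratio of the third point -/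
noncomputable def gr : QF (Fin (3 + 1)) K := 1 + tt K 3 * (gs K - 1)
/-- the constant `y₁ ^ 2 / x₁ ^ 3` -/
noncomputable def gk : QF (Fin (3 + 1)) K := (1 - tt K 1 ^ 3) / (1 - gs K ^ 2)
/-- first coordinate ratio of `P₂ + P₁` -/
noncomputable def v1 : QF (Fin (3 + 1)) K := addA (gk K) (tt K 1) (gs K) 1 1
/-- second coordinate ratio of `P₂ + P₁` -/
noncomputable def s1 : QF (Fin (3 + 1)) K := addB (gk K) (tt K 1) (gs K) 1 1
/-- first coordinate ratio of `P₃ + P₂` -/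
noncomputable def w1 : QF (Fin (3 + 1)) K := addA (gk K) (tt K 2) (gr K) (tt K 1) (gs K)
/-- second coordinate ratio of `P₃ + P₂` -/
noncomputable def r1 : QF (Fin (3 + 1)) K := addB (gk K) (tt K 2) (gr K) (tt K 1) (gs K)
/-- the third new coordinate -/
noncomputable def l1 : QF (Fin (3 + 1)) K := (r1 K - 1) / (s1 K - 1)

variable {K}

section numeric

variable (K) in
/-- a nondegenerate rational point -/
noncomputable def γ0 : MvPolynomial (Fin (3 + 1)) K →+* K :=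
  (aeval ![1, -2⁻¹, 0, 2 * 3⁻¹] : MvPolynomial (Fin (3 + 1)) K →ₐ[K] K).toRingHom

theorem γ0_X (i : Fin (3 + 1)) : γ0 K (X i) = (![1, -2⁻¹, 0, 2 * 3⁻¹] : Fin (3 + 1) → K) i := by
  change (aeval _) _ = _
  rw [aeval_X]

theorem val_tt (i : Fin (3 + 1)) :
    Val (γ0 K) (tt K i) ((![1, -2⁻¹, 0, 2 * 3⁻¹] : Fin (3 + 1) → K) i) := by
  have h := (Val.poly (γ := γ0 K) (X i)).div (Val.poly (γ := γ0 K) (X 0))
    (by rw [γ0_X]; simp)
  refine h.congr rfl ?_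
  rw [γ0_X, γ0_X]
  simp

variable (h6 : (6 : K) ≠ 0)
include h6

theorem val_v : Val (γ0 K) (tt K 1) (-2⁻¹) := val_tt 1
theorem val_w : Val (γ0 K) (tt K 2) 0 := val_tt 2
theorem val_l : Val (γ0 K) (tt K 3) (2 * 3⁻¹) := val_tt 3

theorem q1 : (-(2 : K)⁻¹ - 1) = -(3 * 2⁻¹) := by
  have h2 := two_ne h6
  field_simp
  ring

theorem q1_ne : (-(2 : K)⁻¹ - 1) ≠ 0 := by
  rw [q1 h6]
  exact neg_ne_zero.2 (mul_ne_zero (three_ne h6) (inv_ne_zero (two_ne h6)))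

theorem q2 : ((0 : K) - 1) / (-(2 : K)⁻¹ - 1) = 2 * 3⁻¹ := by
  rw [div_eq_iff (q1_ne h6)]
  have h2 := two_ne h6
  have h3 := three_ne h6
  field_simp
  ring

theorem val_s : Val (γ0 K) (gs K) 0 := by
  have h2 := two_ne h6
  have h3 := three_ne h6
  have e1 : (1 - (-(2 : K)⁻¹) ^ 3) * (2 * 3⁻¹) ^ 2 - (1 - 0 ^ 3) = -2⁻¹ := by
    field_simp
    ring
  have e2 : (1 - (-(2 : K)⁻¹) ^ 3) * (2 * 3⁻¹) ^ 2 - 2 * (1 - (-(2 : K)⁻¹) ^ 3) * (2 * 3⁻¹) +
      (1 - 0 ^ 3) = 0 := by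
    field_simp
    ring
  refine ((val_v h6).sFun (val_w h6) (val_l h6) ?_).congr rfl ?_
  · rw [e1]; exact neg_ne_zero.2 (inv_ne_zero h2)
  · rw [sFun, e2, zero_div]

theorem val_r : Val (γ0 K) (gr K) 3⁻¹ := by
  have h3 := three_ne h6
  refine (Val.one.add ((val_l h6).mul ((val_s h6).sub Val.one))).congr rfl ?_
  field_simp
  ring

theorem val_k : Val (γ0 K) (gk K) (9 * 2⁻¹ ^ 3) := by
  have h2 := two_ne h6
  refine ((Val.one.sub ((val_v h6).pow 3)).div (Val.one.sub ((val_s h6).pow 2)) ?_).congr rfl ?_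
  · norm_num
  · field_simp
    ring

theorem v_ne_one : (-(2 : K)⁻¹) ≠ 1 := sub_ne_zero.1 (q1_ne h6)

theorem addA_num : addA (9 * 2⁻¹ ^ 3) (-(2 : K)⁻¹) 0 1 1 = 0 := by
  have h2 := two_ne h6
  have h3 := three_ne h6
  rw [addA, q2 h6]
  field_simp
  ring

theorem val_v1 : Val (γ0 K) (v1 K) 0 :=
  ((val_k h6).addA (val_v h6) (val_s h6) Val.one Val.one (v_ne_one h6)).congr rfl (addA_num h6)

theorem val_s1 : Val (γ0 K) (s1 K) (-3⁻¹) := by
  have h2 := two_ne h6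
  have h3 := three_ne h6
  refine ((val_k h6).addB (val_v h6) (val_s h6) Val.one Val.one (v_ne_one h6)).congr rfl ?_
  rw [addB, q2 h6, addA_num h6]
  field_simp
  ring

theorem w_ne_v : (0 : K) ≠ -2⁻¹ := by
  intro h
  exact inv_ne_zero (two_ne h6) (neg_eq_zero.1 h.symm)

theorem q3 : ((3 : K)⁻¹ - 0) / (0 - -(2 : K)⁻¹) = 2 * 3⁻¹ := by
  have h2 := two_ne h6
  have h3 := three_ne h6
  rw [sub_neg_eq_add, zero_add, sub_zero, div_inv_eq_mul]
  ring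

theorem addA_num' : addA (9 * 2⁻¹ ^ 3) 0 3⁻¹ (-(2 : K)⁻¹) 0 = 1 := by
  have h2 := two_ne h6
  have h3 := three_ne h6
  rw [addA, q3 h6]
  field_simp
  ring

theorem val_w1 : Val (γ0 K) (w1 K) 1 :=
  ((val_k h6).addA (val_w h6) (val_r h6) (val_v h6) (val_s h6) (w_ne_v h6)).congr rfl
    (addA_num' h6)

theorem val_r1 : Val (γ0 K) (r1 K) (-1) := by
  have h3 := three_ne h6
  refine ((val_k h6).addB (val_w h6) (val_r h6) (val_v h6) (val_s h6) (w_ne_v h6)).congr rfl ?_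
  rw [addB, q3 h6, addA_num' h6]
  field_simp
  ring

/-! ### nondegeneracy of the generic configuration -/

theorem den_ne : (1 - tt K 1 ^ 3) * tt K 3 ^ 2 - (1 - tt K 2 ^ 3) ≠ 0 := by
  have h2 := two_ne h6
  have h3 := three_ne h6
  have e1 : (1 - (-(2 : K)⁻¹) ^ 3) * (2 * 3⁻¹) ^ 2 - (1 - 0 ^ 3) = -2⁻¹ := by
    field_simp
    ring
  refine (((Val.one.sub ((val_v h6).pow 3)).mul ((val_l h6).pow 2)).sub
    (Val.one.sub ((val_w h6).pow 3))).ne_zero ?_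
  rw [e1]; exact neg_ne_zero.2 (inv_ne_zero h2)

theorem gs_sq_ne : 1 - gs K ^ 2 ≠ 0 :=
  (Val.one.sub ((val_s h6).pow 2)).ne_zero (by norm_num)

theorem gs_ne_one : gs K ≠ 1 := (val_s h6).ne Val.one zero_ne_one

theorem tt1_ne : (1 : QF (Fin (3 + 1)) K) - tt K 1 ^ 3 ≠ 0 := by
  have h2 := two_ne h6
  have h3 := three_ne h6
  refine (Val.one.sub ((val_v h6).pow 3)).ne_zero ?_
  have : (1 - (-(2 : K)⁻¹) ^ 3) = (3 * 3) * 2⁻¹ ^ 3 := by
    field_simp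
    ring
  rw [this]
  exact mul_ne_zero (mul_ne_zero h3 h3) (pow_ne_zero _ (inv_ne_zero h2))

theorem sv_ne : gs K ^ 2 - tt K 1 ^ 3 ≠ 0 := by
  refine (((val_s h6).pow 2).sub ((val_v h6).pow 3)).ne_zero ?_
  have : (0 : K) ^ 2 - (-2⁻¹) ^ 3 = 2⁻¹ ^ 3 := by ring
  rw [this]
  exact pow_ne_zero _ (inv_ne_zero (two_ne h6))

theorem tt_one_ne : tt K 1 ≠ 1 := (val_v h6).ne Val.one (v_ne_one h6)

theorem tt_two_ne : tt K 2 ≠ tt K 1 := (val_w h6).ne (val_v h6) (w_ne_v h6)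

theorem conic0 : (1 - tt K 1 ^ 3) * (gr K ^ 2 - 1) = (1 - tt K 2 ^ 3) * (gs K ^ 2 - 1) := by
  have h1 : gs K * ((1 - tt K 1 ^ 3) * tt K 3 ^ 2 - (1 - tt K 2 ^ 3)) =
      (1 - tt K 1 ^ 3) * tt K 3 ^ 2 - 2 * (1 - tt K 1 ^ 3) * tt K 3 + (1 - tt K 2 ^ 3) := by
    rw [gs, sFun, div_mul_cancel₀ _ (den_ne h6)]
  rw [gr]
  linear_combination (gs K - 1) * h1

/-! ### nondegeneracy after one step -/

theorem v1_ne_one : v1 K ≠ 1 := (val_v1 h6).ne Val.one zero_ne_one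

theorem v1_cube_ne : 1 - v1 K ^ 3 ≠ 0 :=
  (Val.one.sub ((val_v1 h6).pow 3)).ne_zero (by norm_num)

theorem s1_ne_one : s1 K ≠ 1 := by
  refine (val_s1 h6).ne Val.one ?_
  intro h
  have h2 := two_ne h6
  have h3 := three_ne h6
  have : (2 : K) * 2 = 0 := by
    have h4 : (3 : K) * -3⁻¹ = 3 * 1 := by rw [h]
    rw [mul_neg, mul_inv_cancel₀ h3] at h4
    linear_combination -h4
  exact mul_ne_zero h2 h2 this

theorem s1_sq_ne : 1 - s1 K ^ 2 ≠ 0 := by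
  have h2 := two_ne h6
  have h3 := three_ne h6
  refine (Val.one.sub ((val_s1 h6).pow 2)).ne_zero ?_
  have : 1 - (-(3 : K)⁻¹) ^ 2 = 2 ^ 3 * 3⁻¹ ^ 2 := by
    field_simp
    ring
  rw [this]
  exact mul_ne_zero (pow_ne_zero _ h2) (pow_ne_zero _ (inv_ne_zero h3))

theorem r1_ne_one : r1 K ≠ 1 := by
  refine (val_r1 h6).ne Val.one ?_
  intro h
  exact two_ne h6 (by linear_combination -h)

theorem r1_ne_s1 : r1 K ≠ s1 K := by
  refine (val_r1 h6).ne (val_s1 h6) ?_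
  intro h
  have h2 := two_ne h6
  have h3 := three_ne h6
  have h4 : (3 : K) * -3⁻¹ = 3 * -1 := by rw [h]
  rw [mul_neg, mul_inv_cancel₀ h3] at h4
  exact h2 (by linear_combination h4)

theorem w1_ne_v : w1 K ≠ tt K 1 := (val_w1 h6).ne (val_v h6) (v_ne_one h6).symm

end numeric

end Pool.Agent.V1156.Dgr
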