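import Pool.Agent.V1156.Dgr.Defs
import Pool.Agent.V1156.Dgr.Rat

/-! Reduced tuples of homogeneous polynomials. -/

set_option autoImplicit false
set_option linter.unusedSectionVars false

namespace Pool.Agent.V1156.Dgr

open MvPolynomial

variable {K : Type*} [Field K]

theorem homog_of_dvd {σ : Type*} [Finite σ] {F G : MvPolynomial σ K} {n : ℕ}
    (hF : F.IsHomogeneous n) (hF0 : F ≠ 0) (h : G ∣ F) : G.IsHomogeneous G.totalDegree := by
  obtain ⟨H, rfl⟩ := h
  have hG0 : G ≠ 0 := left_ne_zero_of_mul hF0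
  have hK0 : H ≠ 0 := right_ne_zero_of_mul hF0
  have hle : ∀ P : MvPolynomial σ K, P ≠ 0 → (P : MvPowerSeries σ K).order ≤ P.totalDegree := by
    intro P hP
    obtain ⟨d, hd⟩ := MvPolynomial.ne_zero_iff.1 hP
    have h1 : (P : MvPowerSeries σ K).order ≤ (d.degree : ℕ∞) :=
      MvPowerSeries.order_le (by simpa using hd)
    refine h1.trans ?_
    have h2 : d.degree ≤ P.totalDegree := by
      have := MvPolynomial.le_totalDegree (p := P) (s := d) (MvPolynomial.mem_support_iff.2 hd)
      simpa [Finsupp.degree_apply, Finsupp.sum] using this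
    exact_mod_cast h2
  have hmul : ((G * H : MvPolynomial σ K) : MvPowerSeries σ K).order =
      (G : MvPowerSeries σ K).order + (H : MvPowerSeries σ K).order := by
    rw [MvPolynomial.coe_mul, MvPowerSeries.order_mul]
  have hFo : (n : ℕ∞) ≤ ((G * H : MvPolynomial σ K) : MvPowerSeries σ K).order := by
    apply MvPowerSeries.nat_le_order
    intro d hd
    rw [MvPolynomial.coeff_coe]
    by_contra hne
    have := hF hne
    have h' : d.degree = n := by rw [← this, Finsupp.degree_eq_weight_one]; rfl
    omega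
  have hT : (G * H).totalDegree = n := hF.totalDegree hF0
  rw [MvPolynomial.totalDegree_mul_of_isDomain hG0 hK0] at hT
  have hKo := hle H hK0
  rw [hmul] at hFo
  intro d hd
  have h1 : (G : MvPowerSeries σ K).order ≤ (d.degree : ℕ∞) :=
      MvPowerSeries.order_le (by simpa using hd)
  have h2 : d.degree ≤ G.totalDegree := by
      have := MvPolynomial.le_totalDegree (p := G) (s := d) (MvPolynomial.mem_support_iff.2 hd)
      simpa [Finsupp.degree_apply, Finsupp.sum] using this
  have h3 : (n : ℕ∞) ≤ (d.degree : ℕ∞) + (H.totalDegree : ℕ∞) := hFo.trans (add_le_add h1 hKo)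
  have h4 : n ≤ d.degree + H.totalDegree := by exact_mod_cast h3
  have h5 : d.degree = G.totalDegree := by omega
  rw [← h5, Finsupp.degree_eq_weight_one]
  rfl

variable {N : ℕ}

theorem exists_reduced : ∀ (e : ℕ) (τ : Fin (N + 1) → MvPolynomial (Fin (N + 1)) K),
    (∀ i, (τ i).IsHomogeneous e) → (∃ i, τ i ≠ 0) →
    ∃ h g d, h ≠ 0 ∧ IsReduced g d ∧ ∀ i, τ i = h * g i := by
  intro e
  induction e using Nat.strong_induction_on with
  | _ e ih =>
    intro τ hτ hne
    by_cases hred : IsReduced τ e
    · exact ⟨1, τ, e, one_ne_zero, hred, fun i => (one_mul _).symm⟩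
    · have : ∃ c, (∀ i, c ∣ τ i) ∧ ¬ IsUnit c := by
        by_contra hcon
        push Not at hcon
        exact hred ⟨hτ, hcon⟩
      obtain ⟨c, hc, hcu⟩ := this
      obtain ⟨i₀, hi₀⟩ := hne
      have hc0 : c ≠ 0 := by
        rintro rfl
        exact hi₀ (zero_dvd_iff.1 (hc i₀))
      have hm : 0 < c.totalDegree := by
        by_contra hcon
        have h0 : c.totalDegree = 0 := by omega
        rw [MvPolynomial.totalDegree_eq_zero_iff_eq_C] at h0
        apply hcu
        rw [h0]
        apply IsUnit.map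
        rw [isUnit_iff_ne_zero]
        intro h1
        rw [h1, map_zero] at h0
        exact hc0 h0
      choose τ' hτ' using hc
      have hdeg : ∀ i, (τ' i).IsHomogeneous (e - c.totalDegree) := by
        intro i
        by_cases hi : τ i = 0
        · have : τ' i = 0 := by
            rcases mul_eq_zero.1 ((hτ' i).symm.trans hi) with h1 | h1
            · exact absurd h1 hc0
            · exact h1
          rw [this]
          exact isHomogeneous_zero _ _ _
        · have h1 : τ' i ∣ τ i := ⟨c, by rw [hτ' i]; ring⟩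
          have h2 := homog_of_dvd (hτ i) hi h1
          have h3 : τ' i ≠ 0 := by
            intro h4
            exact hi (by rw [hτ' i, h4, mul_zero])
          have h4 : (τ i).totalDegree = e := (hτ i).totalDegree hi
          rw [hτ' i, MvPolynomial.totalDegree_mul_of_isDomain hc0 h3] at h4
          have h5 : e - c.totalDegree = (τ' i).totalDegree := by omega
          rw [h5]
          exact h2
      have hce : c.totalDegree ≤ e := by
        have h4 : (τ i₀).totalDegree = e := (hτ i₀).totalDegree hi₀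
        have h3 : τ' i₀ ≠ 0 := by
            intro h4
            exact hi₀ (by rw [hτ' i₀, h4, mul_zero])
        rw [hτ' i₀, MvPolynomial.totalDegree_mul_of_isDomain hc0 h3] at h4
        omega
      have hne' : ∃ i, τ' i ≠ 0 := ⟨i₀, fun h4 => hi₀ (by rw [hτ' i₀, h4, mul_zero])⟩
      obtain ⟨h, g, d, hh, hg, hgi⟩ := ih (e - c.totalDegree) (by omega) τ' hdeg hne'
      exact ⟨c * h, g, d, mul_ne_zero hc0 hh, hg, fun i => by rw [hτ' i, hgi i]; ring⟩

theorem IsReduced.dvd {g : Fin (N + 1) → MvPolynomial (Fin (N + 1)) K} {d : ℕ} (hg : IsReduced g d)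
    (h0 : g 0 ≠ 0) {t : MvPolynomial (Fin (N + 1)) K} (h : ∀ i, g 0 ∣ g i * t) : g 0 ∣ t := by
  obtain ⟨a, b, c, hab, ha, hb⟩ := UniqueFactorizationMonoid.exists_reduced_factors (g 0) h0 t
  have hc : c ≠ 0 := by
    rintro rfl
    exact h0 (by rw [← ha, zero_mul])
  have h1 : ∀ i, a ∣ g i := by
    intro i
    have h2 : c * a ∣ c * (g i * b) := by
      have := h i
      rw [← ha, ← hb] at this
      have h3 : g i * (c * b) = c * (g i * b) := by ring
      rwa [h3] at this
    have h4 : a ∣ g i * b := (mul_dvd_mul_iff_left hc).1 h2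
    exact hab.dvd_of_dvd_mul_right h4
  have h2 : IsUnit a := hg.2 a h1
  obtain ⟨u, rfl⟩ := h2
  rw [← ha, ← hb]
  exact mul_dvd_mul_left c (Units.coe_dvd)

theorem IsReduced.degree_le {g : Fin (N + 1) → MvPolynomial (Fin (N + 1)) K} {d B : ℕ}
    (hg : IsReduced g d) (h0 : g 0 ≠ 0) (h : ∀ i, Rep (inc (g i) / inc (g 0)) B) :
    d ≤ (N + 1) * B := by
  choose p q hp hq hq0 hpq using h
  have h1 : ∀ i, g i * q i = p i * g 0 := by
    intro i
    apply inc_inj
    rw [map_mul, map_mul]
    have := hpq i
    rwa [div_eq_div_iff (inc_ne h0) (inc_ne (hq0 i))] at this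
  have h2 : ∀ i, g 0 ∣ g i * ∏ j, q j := by
    intro i
    rw [← Finset.mul_prod_erase Finset.univ q (Finset.mem_univ i), ← mul_assoc, h1]
    exact ⟨p i * ∏ j ∈ Finset.univ.erase i, q j, by ring⟩
  have h3 := hg.dvd h0 h2
  obtain ⟨c, hc⟩ := h3
  have hprod0 : ∏ j, q j ≠ 0 := Finset.prod_ne_zero_iff.2 fun j _ => hq0 j
  have hprod : (∏ j, q j).IsHomogeneous ((N + 1) * B) := by
    have := IsHomogeneous.prod Finset.univ q (fun _ => B) (fun j _ => hq j)
    simpa using this
  have hc0 : c ≠ 0 := by
    rintro rfl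
    exact hprod0 (by rw [hc, mul_zero])
  have h4 := hprod.totalDegree hprod0
  rw [hc, MvPolynomial.totalDegree_mul_of_isDomain h0 hc0, (hg.1 0).totalDegree h0] at h4
  omega

theorem IsReduced.val {M : Type*} [Field M] {γ : MvPolynomial (Fin (N + 1)) K →+* M}
    {g : Fin (N + 1) → MvPolynomial (Fin (N + 1)) K} {d : ℕ} (hg : IsReduced g d) (h0 : g 0 ≠ 0)
    {i : Fin (N + 1)} {b : M} (h : Val γ (inc (g i) / inc (g 0)) b) :
    ∃ A B : MvPolynomial (Fin (N + 1)) K, A.totalDegree ≤ d ∧ B.totalDegree ≤ d ∧ γ B ≠ 0 ∧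
      b = γ A / γ B := by
  obtain ⟨A, B, c, hAB, hA, hB⟩ := UniqueFactorizationMonoid.exists_reduced_factors' (g i) (g 0) h0
  have hc : c ≠ 0 := by
    rintro rfl
    exact h0 (by rw [← hB, zero_mul])
  have hB0 : B ≠ 0 := by
    rintro rfl
    exact h0 (by rw [← hB, mul_zero])
  have h1 : inc (g i) / inc (g 0) = inc A / inc B := by
    rw [← hA, ← hB, map_mul, map_mul, mul_div_mul_left _ _ (inc_ne hc)]
  obtain ⟨h2, h3⟩ := h.reduced hAB hB0 h1
  have hle : ∀ C j, c * C = g j → C.totalDegree ≤ d := by
    intro C j hC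
    by_cases hC0 : C = 0
    · simp [hC0]
    · have hg0 : g j ≠ 0 := by rw [← hC]; exact mul_ne_zero hc hC0
      have h4 := (hg.1 j).totalDegree hg0
      rw [← hC, MvPolynomial.totalDegree_mul_of_isDomain hc hC0] at h4
      omega
  exact ⟨A, B, hle A i hA, hle B 0 hB, h2, h3⟩

theorem natDegree_aeval_le {σ : Type*} {e : ℕ} (G : σ → Polynomial K)
    (hG : ∀ j, (G j).natDegree ≤ e) (A : MvPolynomial σ K) :
    (aeval G A).natDegree ≤ e * A.totalDegree := by
  rw [aeval_def, eval₂_eq]
  apply Polynomial.natDegree_sum_le_of_forall_le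
  intro m hm
  have h1 : m.degree ≤ A.totalDegree := by
    have := le_totalDegree (p := A) (s := m) hm
    simpa [Finsupp.degree_apply, Finsupp.sum] using this
  have h2 : (∏ i ∈ m.support, G i ^ m i).natDegree ≤ e * m.degree := by
    refine (Polynomial.natDegree_prod_le _ _).trans ?_
    rw [Finsupp.degree_apply, Finset.mul_sum]
    apply Finset.sum_le_sum
    intro i _
    calc (G i ^ m i).natDegree ≤ m i * (G i).natDegree := Polynomial.natDegree_pow_le
      _ ≤ m i * e := Nat.mul_le_mul_left _ (hG i)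
      _ = e * m i := by ring
  calc (algebraMap K (Polynomial K) (coeff m A) * ∏ i ∈ m.support, G i ^ m i).natDegree
      ≤ (∏ i ∈ m.support, G i ^ m i).natDegree := by
        rw [Polynomial.algebraMap_eq]
        exact Polynomial.natDegree_C_mul_le _ _
    _ ≤ e * m.degree := h2
    _ ≤ e * A.totalDegree := Nat.mul_le_mul_left _ h1

/-! ### iteration -/

theorem aeval_substIterate (f : Fin (N + 1) → MvPolynomial (Fin (N + 1)) K) (n : ℕ)
    (p : MvPolynomial (Fin (N + 1)) K) :
    aeval (substIterate f n) p = (aeval f : _ →ₐ[K] MvPolynomial (Fin (N + 1)) K)^[n] p := by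
  induction n generalizing p with
  | zero => simp [substIterate]
  | succ n ih =>
    rw [Function.iterate_succ_apply, ← ih]
    have : (aeval (substIterate f (n + 1)) : MvPolynomial (Fin (N + 1)) K →ₐ[K] _) =
        (aeval (substIterate f n)).comp (aeval f) := by
      apply MvPolynomial.algHom_ext
      intro i
      simp [substIterate]
    rw [this]
    rfl

theorem substIterate_eq (f : Fin (N + 1) → MvPolynomial (Fin (N + 1)) K) (n : ℕ)
    (i : Fin (N + 1)) :
    substIterate f n i = (aeval f : _ →ₐ[K] MvPolynomial (Fin (N + 1)) K)^[n] (X i) := by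
  rw [← aeval_substIterate, aeval_X]

theorem substIterate_homog {f : Fin (N + 1) → MvPolynomial (Fin (N + 1)) K} {e : ℕ}
    (hf : ∀ i, (f i).IsHomogeneous e) (n : ℕ) (i : Fin (N + 1)) :
    (substIterate f n i).IsHomogeneous (e ^ n) := by
  induction n generalizing i with
  | zero => simpa [substIterate] using isHomogeneous_X K i
  | succ n ih =>
    have := (hf i).aeval (substIterate f n) ih
    rw [pow_succ]
    exact this

section end_map

variable {f : Fin (N + 1) → MvPolynomial (Fin (N + 1)) K}

/-- the endomorphism of the field of rational functions -/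
noncomputable def endo (f : Fin (N + 1) → MvPolynomial (Fin (N + 1)) K) (hf : Dominant f) :
    QF (Fin (N + 1)) K →+* QF (Fin (N + 1)) K :=
  IsFractionRing.lift (A := MvPolynomial (Fin (N + 1)) K)
    (g := inc.comp (aeval f : MvPolynomial (Fin (N + 1)) K →ₐ[K] _).toRingHom)
    (inc_inj.comp hf)

theorem endo_inc (hf : Dominant f) (p : MvPolynomial (Fin (N + 1)) K) :
    endo f hf (inc p) = inc (aeval f p) :=
  IsFractionRing.lift_algebraMap _ p

theorem endo_iterate_inc (hf : Dominant f) (n : ℕ) (p : MvPolynomial (Fin (N + 1)) K) :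
    (endo f hf)^[n] (inc p) =
      inc ((aeval f : _ →ₐ[K] MvPolynomial (Fin (N + 1)) K)^[n] p) := by
  induction n with
  | zero => rfl
  | succ n ih => rw [Function.iterate_succ_apply', ih, endo_inc, Function.iterate_succ_apply']

theorem endo_iterate_ratio (hf : Dominant f) (n : ℕ) (i : Fin (N + 1)) :
    (endo f hf)^[n] (inc (X i) / inc (X 0)) =
      inc (substIterate f n i) / inc (substIterate f n 0) := by
  have : ∀ m (a b : QF (Fin (N + 1)) K), (endo f hf)^[m] (a / b) =
      (endo f hf)^[m] a / (endo f hf)^[m] b := by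
    intro m
    induction m with
    | zero => intro a b; rfl
    | succ m ih =>
      intro a b
      rw [Function.iterate_succ_apply, map_div₀, ih]
      rfl
  rw [this, endo_iterate_inc, endo_iterate_inc, substIterate_eq, substIterate_eq]

theorem substIterate_ne_zero (hf : Dominant f) (n : ℕ) (i : Fin (N + 1)) :
    substIterate f n i ≠ 0 := by
  rw [substIterate_eq]
  have h1 : Function.Injective (aeval f : _ →ₐ[K] MvPolynomial (Fin (N + 1)) K)^[n] :=
    Function.Injective.iterate hf n
  intro h
  have h2 : (aeval f : _ →ₐ[K] MvPolynomial (Fin (N + 1)) K)^[n] 0 = 0 := by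
    clear h h1
    induction n with
    | zero => rfl
    | succ n ih => rw [Function.iterate_succ_apply, map_zero, ih]
  exact X_ne_zero i (h1 (h.trans h2.symm))

/-- existence of the reduced form of the iterates -/
theorem exists_iterate (hf : Dominant f) {e : ℕ} (hfe : ∀ i, (f i).IsHomogeneous e) (n : ℕ) :
    ∃ (g : Fin (N + 1) → MvPolynomial (Fin (N + 1)) K) (d : ℕ), IterateDegree f n d ∧
      IsReduced g d ∧ g 0 ≠ 0 ∧
      ∀ i, (endo f hf)^[n] (inc (X i) / inc (X 0)) = inc (g i) / inc (g 0) := by
  obtain ⟨h, g, d, hh, hg, hgi⟩ := exists_reduced (e ^ n) (substIterate f n)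
    (substIterate_homog hfe n) ⟨0, substIterate_ne_zero hf n 0⟩
  refine ⟨g, d, ⟨h, g, hh, hg, hgi⟩, hg, ?_, ?_⟩
  · intro h0
    exact substIterate_ne_zero hf n 0 (by rw [hgi, h0, mul_zero])
  · intro i
    rw [endo_iterate_ratio, hgi i, hgi 0, map_mul, map_mul, mul_div_mul_left _ _ (inc_ne hh)]

end end_map

end Pool.Agent.V1156.Dgr
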