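import Pool.Agent.V1156.Dgr.Gen
import Pool.Agent.V1156.Dgr.Tuple

/-! The generic configuration of points, and the rational self-map of projective three-space. -/

set_option autoImplicit false
set_option linter.unusedSectionVars false

namespace Pool.Agent.V1156.Dgr

open MvPolynomial

variable {K : Type*} [Field K]

/-- the value of `x₁ ^ 3` -/
noncomputable def gz (K : Type*) [Field K] : QF (Fin (3 + 1)) K :=
  (1 - gs K ^ 2) / (gs K ^ 2 - tt K 1 ^ 3)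

section

variable {Ω : Type*} [Field Ω] (ι : QF (Fin (3 + 1)) K →+* Ω) (x₁ y₁ : Ω)

/-- the point `P` has relative coordinates `a, b` -/
def Rl (P : (W Ω).Point) (a b : QF (Fin (3 + 1)) K) : Prop := At P (x₁ * ι a) (y₁ * ι b)

/-- a choice of the base point over the extension `Ω` -/
structure Base : Prop where
  hx : x₁ ^ 3 = ι (gz K)
  hy : y₁ ^ 2 = ι (gz K + 1)

variable {ι x₁ y₁}

variable (h6 : (6 : K) ≠ 0)
include h6

theorem gz_ne : gz K ≠ 0 := div_ne_zero (gs_sq_ne h6) (sv_ne h6)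

theorem gz_one : gz K + 1 = (1 - tt K 1 ^ 3) / (gs K ^ 2 - tt K 1 ^ 3) := by
  have := sv_ne h6
  rw [gz]; field_simp; ring

theorem gz_one_ne : gz K + 1 ≠ 0 := by
  rw [gz_one h6]; exact div_ne_zero (tt1_ne h6) (sv_ne h6)

theorem gk_eq : gk K = (gz K + 1) / gz K := by
  rw [gz_one h6, gz, gk]
  have h1 := sv_ne h6
  have h2 := gs_sq_ne h6
  field_simp

variable (hb : Base ι x₁ y₁)
include hb

theorem Base.x_ne : x₁ ≠ 0 := by
  rintro rfl
  have := hb.hx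
  rw [zero_pow (by norm_num)] at this
  exact gz_ne h6 (ι.injective (this.symm.trans (map_zero ι).symm))

theorem Base.y_ne : y₁ ≠ 0 := by
  rintro rfl
  have := hb.hy
  rw [zero_pow (by norm_num)] at this
  exact gz_one_ne h6 (ι.injective (this.symm.trans (map_zero ι).symm))

theorem Base.k : ι (gk K) = y₁ ^ 2 / x₁ ^ 3 := by
  rw [hb.hx, hb.hy, gk_eq h6, map_div₀]

theorem Base.six : (6 : Ω) ≠ 0 := by
  have h1 : ι (6 : QF (Fin (3 + 1)) K) = 6 := map_ofNat ι 6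
  rw [← h1]
  intro h
  have h2 : (6 : QF (Fin (3 + 1)) K) = 0 := ι.injective (h.trans (map_zero ι).symm)
  have h3 : Val (γ0 K) (6 : QF (Fin (3 + 1)) K) (6 : K) := by
    simpa using Val.nat (γ := γ0 K) 6
  exact h3.ne_zero h6 h2

theorem Base.exists_point {a b : QF (Fin (3 + 1)) K}
    (h : (gz K + 1) * b ^ 2 = gz K * a ^ 3 + 1) : ∃ P, Rl ι x₁ y₁ P a b := by
  apply exists_at (hb.six h6)
  rw [mul_pow, mul_pow, hb.hx, hb.hy, ← map_pow, ← map_pow, ← map_mul, ← map_mul, h, map_add,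
    map_one]

theorem Rl.eqn {P : (W Ω).Point} {a b : QF (Fin (3 + 1)) K} (h : Rl ι x₁ y₁ P a b) :
    (gz K + 1) * b ^ 2 = gz K * a ^ 3 + 1 := by
  have h1 := At.eqn h
  rw [mul_pow, mul_pow, hb.hx, hb.hy, ← map_pow, ← map_pow, ← map_mul, ← map_mul,
    ← map_one ι, ← map_add] at h1
  have h2 := ι.injective h1
  simpa using h2

theorem Rl.inj {P : (W Ω).Point} {a b a' b' : QF (Fin (3 + 1)) K} (h : Rl ι x₁ y₁ P a b)
    (h' : Rl ι x₁ y₁ P a' b') : a = a' ∧ b = b' := by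
  obtain ⟨h1, h2⟩ := At.inj h h'
  exact ⟨ι.injective (mul_left_cancel₀ (hb.x_ne h6) h1),
    ι.injective (mul_left_cancel₀ (hb.y_ne h6) h2)⟩

theorem Rl.neg {P : (W Ω).Point} {a b : QF (Fin (3 + 1)) K} (h : Rl ι x₁ y₁ P a b) :
    Rl ι x₁ y₁ (-P) a (-b) := by
  refine (At.neg h).congr rfl ?_
  rw [map_neg]; ring

theorem Rl.add [DecidableEq Ω] {P P' : (W Ω).Point} {a b a' b' : QF (Fin (3 + 1)) K}
    (h : Rl ι x₁ y₁ P a b) (h' : Rl ι x₁ y₁ P' a' b') (hne : a ≠ a') :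
    Rl ι x₁ y₁ (P + P') (addA (gk K) a b a' b') (addB (gk K) a b a' b') := by
  refine (rel_add (hb.x_ne h6) (hb.y_ne h6) (hb.k h6) h h' (ι.injective.ne hne)).congr ?_ ?_
  · rw [map_addA]
  · rw [map_addB]

theorem exists_cfg : ∃ P₁ P₂ P₃ : (W Ω).Point, Rl ι x₁ y₁ P₁ 1 1 ∧
    Rl ι x₁ y₁ P₂ (tt K 1) (gs K) ∧ Rl ι x₁ y₁ P₃ (tt K 2) (gr K) := by
  obtain ⟨P₁, h1⟩ := hb.exists_point h6 (a := 1) (b := 1) (by ring)
  have h2 := sv_ne h6
  obtain ⟨P₂, h3⟩ := hb.exists_point h6 (a := tt K 1) (b := gs K) (by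
    rw [gz]; field_simp; ring)
  obtain ⟨P₃, h4⟩ := hb.exists_point h6 (a := tt K 2) (b := gr K) (by
    rw [gz]; field_simp
    linear_combination conic0 h6)
  exact ⟨P₁, P₂, P₃, h1, h3, h4⟩

end

/-- existence of a base point over an algebraically closed extension -/
theorem exists_base (K : Type*) [Field K] :
    ∃ x₁ y₁ : AlgebraicClosure (QF (Fin (3 + 1)) K),
      Base (K := K) (algebraMap (QF (Fin (3 + 1)) K) (AlgebraicClosure (QF (Fin (3 + 1)) K)))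
        x₁ y₁ := by
  obtain ⟨x₁, hx⟩ := IsAlgClosed.exists_pow_nat_eq
    (algebraMap (QF (Fin (3 + 1)) K) (AlgebraicClosure (QF (Fin (3 + 1)) K)) (gz K))
    (n := 3) (by norm_num)
  obtain ⟨y₁, hy⟩ := IsAlgClosed.exists_pow_nat_eq
    (algebraMap (QF (Fin (3 + 1)) K) (AlgebraicClosure (QF (Fin (3 + 1)) K)) (gz K + 1))
    (n := 2) (by norm_num)
  exact ⟨x₁, y₁, hx, hy⟩

section

variable (h6 : (6 : K) ≠ 0)
include h6

theorem step_data : (1 - v1 K ^ 3) * (r1 K ^ 2 - 1) = (1 - w1 K ^ 3) * (s1 K ^ 2 - 1) ∧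
    (gz K + 1) * (1 - s1 K ^ 2) = gz K * (1 - v1 K ^ 3) ∧
    tt K 1 = addA (gk K) (v1 K) (s1 K) 1 (-1) ∧ gs K = addB (gk K) (v1 K) (s1 K) 1 (-1) ∧
    tt K 2 = addA (gk K) (w1 K) (r1 K) (tt K 1) (-gs K) ∧
    gr K = addB (gk K) (w1 K) (r1 K) (tt K 1) (-gs K) := by
  classical
  obtain ⟨x₁, y₁, hb⟩ := exists_base K
  obtain ⟨P₁, P₂, P₃, h1, h2, h3⟩ := exists_cfg h6 hb
  have h4 : Rl _ x₁ y₁ (P₂ + P₁) (v1 K) (s1 K) := h2.add h6 hb h1 (tt_one_ne h6)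
  have h5 : Rl _ x₁ y₁ (P₃ + P₂) (w1 K) (r1 K) := h3.add h6 hb h2 (tt_two_ne h6)
  have e4 := h4.eqn h6 hb
  have e5 := h5.eqn h6 hb
  have h7 := (h4.add h6 hb (h1.neg h6 hb) (v1_ne_one h6))
  have h8 := (h5.add h6 hb (h2.neg h6 hb) (w1_ne_v h6))
  have e7 : P₂ + P₁ + -P₁ = P₂ := by abel
  have e8 : P₃ + P₂ + -P₂ = P₃ := by abel
  rw [e7] at h7
  rw [e8] at h8
  obtain ⟨i1, i2⟩ := h2.inj h6 hb h7
  obtain ⟨i3, i4⟩ := h3.inj h6 hb h8
  refine ⟨?_, ?_, i1, i2, i3, i4⟩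
  · apply mul_left_cancel₀ (gz_one_ne h6)
    linear_combination (1 - v1 K ^ 3) * e5 - (1 - w1 K ^ 3) * e4
  · linear_combination -e4

theorem two_ne' : (2 : QF (Fin (3 + 1)) K) ≠ 0 :=
  (Val.two (γ := γ0 K)).ne_zero (two_ne h6)

theorem sFun_step : sFun (v1 K) (w1 K) (l1 K) = s1 K :=
  (sFun_eq (two_ne' h6) (step_data h6).1 (s1_ne_one h6) (v1_cube_ne h6) (r1_ne_one h6)
    (r1_ne_s1 h6)).1.symm

theorem r1_step : 1 + l1 K * (s1 K - 1) = r1 K := by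
  have := sub_ne_zero.2 (s1_ne_one h6)
  rw [l1]; field_simp; ring

theorem gk_step : (1 - v1 K ^ 3) / (1 - s1 K ^ 2) = gk K := by
  have h1 := (step_data h6).2.1
  have h2 := s1_sq_ne h6
  have h3 := gz_ne h6
  rw [gk_eq h6, div_eq_div_iff h2 h3]
  linear_combination -h1

end

end Pool.Agent.V1156.Dgr
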