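import Pool.Agent.V1156.Dgr.Dup

/-! The generic point of `y ^ 2 = x ^ 3 + 1` has infinite order. -/

set_option autoImplicit false
set_option linter.unusedSectionVars false

namespace Pool.Agent.V1156.Dgr

open Polynomial

variable {K : Type*} [Field K] {M : Type*} [Field M] [DecidableEq M] {j : K[X] →+* M}

theorem six_ne (hj : Function.Injective j) (h6 : (6 : K) ≠ 0) : (6 : M) ≠ 0 := by
  have h1 : j (C 6) = (6 : M) := by
    rw [show (C (6 : K)) = (6 : K[X]) from map_ofNat C 6]
    exact map_ofNat j 6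
  rw [← h1]
  intro h0
  have := hj (h0.trans (map_zero j).symm)
  rw [C_eq_zero] at this
  exact h6 this

theorem at_two_pow (hj : Function.Injective j) (h6 : (6 : K) ≠ 0) {P : (W M).Point} {y : M}
    (hP : At P (j X) y) (k : ℕ) :
    ∃ z, At ((2 ^ k : ℕ) • P) (j (pp K k) / j (qq K k)) z := by
  induction k with
  | zero =>
    refine ⟨y, ?_⟩
    rw [pow_zero, one_smul]
    refine hP.congr ?_ rfl
    simp [pp, qq, pq]
  | succ k ih =>
    obtain ⟨z, hz⟩ := ih
    have h2 : (2 : M) ≠ 0 := two_ne (six_ne hj h6)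
    have hq : j (qq K k) ≠ 0 := fun h0 => qq_ne_zero h6 k (hj (h0.trans (map_zero j).symm))
    have hs : j (pp K k) ^ 3 + j (qq K k) ^ 3 ≠ 0 := by
      intro h0
      apply sum_ne_zero h6 k
      apply hj
      rw [map_add, map_pow, map_pow, h0, map_zero]
    have he := hz.eqn
    have hz0 : z ≠ 0 := by
      rintro rfl
      apply hs
      have : j (qq K k) ^ 3 * ((j (pp K k) / j (qq K k)) ^ 3 + 1) = 0 := by
        rw [← he]; ring
      rw [← this]
      field_simp
    obtain ⟨y', h3⟩ : ∃ y', At ((2 ^ k : ℕ) • P + (2 ^ k : ℕ) • P)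
        ((3 * (j (pp K k) / j (qq K k)) ^ 2 / (2 * z)) ^ 2 - j (pp K k) / j (qq K k) -
          j (pp K k) / j (qq K k)) y' := ⟨_, hz.dbl (mul_ne_zero h2 hz0)⟩
    refine ⟨y', ?_⟩
    · have e1 : (2 ^ (k + 1) : ℕ) • P = (2 ^ k : ℕ) • P + (2 ^ k : ℕ) • P := by
        rw [pow_succ, mul_comm, mul_smul, two_smul]
      rw [e1]
      refine h3.congr ?_ rfl
      have e2 : (3 * (j (pp K k) / j (qq K k)) ^ 2 / (2 * z)) ^ 2 =
          9 * (j (pp K k) / j (qq K k)) ^ 4 / (4 * z ^ 2) := by
        rw [div_pow]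
        congr 1 <;> ring
      rw [e2, he, pp_succ, qq_succ, map_mul, map_mul, map_mul, map_sub, map_mul, map_add, map_pow,
        map_pow, show j (8 : K[X]) = (8 : M) from map_ofNat j 8,
        show j (4 : K[X]) = (4 : M) from map_ofNat j 4]
      have h4 : (4 : M) ≠ 0 := by
        have : (4 : M) = 2 * 2 := by norm_num
        rw [this]; exact mul_ne_zero h2 h2
      generalize j (pp K k) = p at *
      generalize j (qq K k) = q at *
      have h5 : (p / q) ^ 3 + 1 = (p ^ 3 + q ^ 3) / q ^ 3 := by field_simp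
      rw [h5]
      field_simp
      ring

theorem two_pow_inj (hj : Function.Injective j) (h6 : (6 : K) ≠ 0) {P : (W M).Point} {y : M}
    (hP : At P (j X) y) : Function.Injective fun k : ℕ => (2 ^ k : ℕ) • P := by
  have key : ∀ a b : ℕ, a < b → (2 ^ a : ℕ) • P ≠ (2 ^ b : ℕ) • P := by
    intro a b hab heq
    obtain ⟨z, hz⟩ := at_two_pow hj h6 hP a
    obtain ⟨z', hz'⟩ := at_two_pow hj h6 hP b
    rw [← heq] at hz'
    have h1 := (hz.inj hz').1
    have hqa : j (qq K a) ≠ 0 := fun h0 => qq_ne_zero h6 a (hj (h0.trans (map_zero j).symm))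
    have hqb : j (qq K b) ≠ 0 := fun h0 => qq_ne_zero h6 b (hj (h0.trans (map_zero j).symm))
    rw [div_eq_div_iff hqa hqb, ← map_mul, ← map_mul] at h1
    have h2 := hj h1
    obtain ⟨hca, hpa, hqa', hnea⟩ := inv_pq h6 a
    obtain ⟨hcb, hpb, hqb', hneb⟩ := inv_pq h6 b
    have h3 : qq K b ∣ qq K a := by
      have : qq K b ∣ qq K a * pp K b := ⟨pp K a, by rw [mul_comm (qq K b), ← h2.symm]; ring⟩
      exact hcb.symm.dvd_of_dvd_mul_right this
    have h4 : pp K b ∣ pp K a := by
      have : pp K b ∣ pp K a * qq K b := ⟨qq K a, h2⟩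
      exact hcb.dvd_of_dvd_mul_right this
    have hlt : 4 ^ a < 4 ^ b := Nat.pow_lt_pow_right (by norm_num) hab
    have h5 : (qq K b).natDegree ≤ 4 ^ a :=
      (natDegree_le_of_dvd h3 (qq_ne_zero h6 a)).trans hqa'
    rcases hneb with h | h
    · have hpa0 : pp K a ≠ 0 := by
        intro h0
        rw [h0, zero_mul] at h2
        have h6' : pp K b = 0 := by
          rcases mul_eq_zero.1 h2.symm with h7 | h7
          · exact h7
          · exact absurd h7 (qq_ne_zero h6 a)
        rw [h6'] at h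
        simp at h
      have h6' : (pp K b).natDegree ≤ 4 ^ a := (natDegree_le_of_dvd h4 hpa0).trans hpa
      exact h (coeff_eq_zero_of_natDegree_lt (by omega))
    · exact h (coeff_eq_zero_of_natDegree_lt (by omega))
  intro a b hab
  rcases lt_trichotomy a b with h | h | h
  · exact absurd hab (key a b h)
  · exact h
  · exact absurd hab.symm (key b a h)

theorem not_torsion (hj : Function.Injective j) (h6 : (6 : K) ≠ 0) {P : (W M).Point} {y : M}
    (hP : At P (j X) y) {m : ℤ} (hm : m • P = 0) : m = 0 := by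
  by_contra h0
  have h1 : IsOfFinAddOrder P := isOfFinAddOrder_iff_zsmul_eq_zero.2 ⟨m, h0, hm⟩
  have h2 : (AddSubgroup.zmultiples P : Set (W M).Point).Finite :=
    h1.finite_zmultiples
  have h3 : Set.Infinite (Set.range fun k : ℕ => (2 ^ k : ℕ) • P) :=
    Set.infinite_range_of_injective (two_pow_inj hj h6 hP)
  apply h3
  apply h2.subset
  rintro _ ⟨k, rfl⟩
  exact AddSubgroup.nsmul_mem_zmultiples P _

end Pool.Agent.V1156.Dgr
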