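import Pool.Agent.V1156.Dgr.Upper
import Pool.Agent.V1156.Dgr.Tors

/-! Lower bound for the degrees of the iterates, by restriction to a curve. -/

set_option autoImplicit false
set_option linter.unusedSectionVars false
set_option linter.unusedSimpArgs false
set_option linter.unusedVariables false

namespace Pool.Agent.V1156.Dgr

open Polynomial

variable {K : Type*} [Field K]

/-- the restriction to a curve -/
noncomputable def GG (K : Type*) [Field K] : Fin (3 + 1) → K[X] :=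
  ![X * (X ^ 3 - 8) * (-7 * X ^ 6 + 4 * X ^ 3 - 16),
    4 * (X ^ 3 + 1) * X * (-7 * X ^ 6 + 4 * X ^ 3 - 16),
    -4 * (X ^ 3 + 1) * (-7 * X ^ 6 + 4 * X ^ 3 - 16),
    (X ^ 6 + 20 * X ^ 3 - 8) * X * (X ^ 3 - 8)]

theorem GG_deg (i : Fin (3 + 1)) : (GG K i).natDegree ≤ 10 := by
  fin_cases i
  · change (X * (X ^ 3 - 8) * (-7 * X ^ 6 + 4 * X ^ 3 - 16) : K[X]).natDegree ≤ 10
    compute_degree
  · change (4 * (X ^ 3 + 1) * X * (-7 * X ^ 6 + 4 * X ^ 3 - 16) : K[X]).natDegree ≤ 10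
    compute_degree
  · change (-4 * (X ^ 3 + 1) * (-7 * X ^ 6 + 4 * X ^ 3 - 16) : K[X]).natDegree ≤ 10
    refine le_trans (b := 9) ?_ (by norm_num)
    compute_degree
  · change ((X ^ 6 + 20 * X ^ 3 - 8) * X * (X ^ 3 - 8) : K[X]).natDegree ≤ 10
    compute_degree

variable {M : Type*} [Field M] [DecidableEq M] {j : K[X] →+* M}

theorem j_ne (hj : Function.Injective j) {p : K[X]} (h : p.eval 0 ≠ 0) : j p ≠ 0 := by
  intro h0
  have := hj (h0.trans (map_zero j).symm)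
  rw [this, eval_zero] at h
  exact h rfl

theorem eight_ne (h6 : (6 : K) ≠ 0) : (8 : K) ≠ 0 := by
  have : (8 : K) = 2 ^ 3 := by norm_num
  rw [this]; exact pow_ne_zero _ (two_ne h6)

/-- the specialisation -/
noncomputable def gam (j : K[X] →+* M) : MvPolynomial (Fin (3 + 1)) K →+* M :=
  j.comp (MvPolynomial.aeval (GG K) : MvPolynomial (Fin (3 + 1)) K →ₐ[K] K[X]).toRingHom

theorem gam_apply (p : MvPolynomial (Fin (3 + 1)) K) :
    gam j p = j (MvPolynomial.aeval (GG K) p) := rfl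

theorem gam_X (i : Fin (3 + 1)) : gam j (MvPolynomial.X i) = j (GG K i) := by
  rw [gam_apply, MvPolynomial.aeval_X]

section

variable (hj : Function.Injective j) (h6 : (6 : K) ≠ 0)
include hj h6

theorem nz : j X ≠ 0 ∧ (j X ^ 3 - 8 : M) ≠ 0 ∧ (-7 * j X ^ 6 + 4 * j X ^ 3 - 16 : M) ≠ 0 ∧
    (j X ^ 6 + 20 * j X ^ 3 - 8 : M) ≠ 0 ∧ (j X ^ 3 + 1 : M) ≠ 0 ∧
    ((j X ^ 3 - 8) ^ 3 - (4 * (j X ^ 3 + 1)) ^ 3 : M) ≠ 0 := by
  have h8 := eight_ne h6
  have h2 := two_ne h6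
  have h3 := three_ne h6
  have j4 : j 4 = 4 := map_ofNat j 4
  have j7 : j 7 = 7 := map_ofNat j 7
  have j8 : j 8 = 8 := map_ofNat j 8
  have j16 : j 16 = 16 := map_ofNat j 16
  have j20 : j 20 = 20 := map_ofNat j 20
  refine ⟨?_, ?_, ?_, ?_, ?_, ?_⟩
  · intro h0
    exact X_ne_zero (hj (h0.trans (map_zero j).symm))
  · have := j_ne hj (p := (X ^ 3 - 8 : K[X])) (by simpa using h8)
    simpa [j4, j7, j8, j16, j20] using this
  · have := j_ne hj (p := (-7 * X ^ 6 + 4 * X ^ 3 - 16 : K[X])) (by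
      have : (16 : K) ≠ 0 := by
        have : (16 : K) = 2 ^ 4 := by norm_num
        rw [this]; exact pow_ne_zero _ h2
      simpa using this)
    simpa [j4, j7, j8, j16, j20] using this
  · have := j_ne hj (p := (X ^ 6 + 20 * X ^ 3 - 8 : K[X])) (by simpa using h8)
    simpa [j4, j7, j8, j16, j20] using this
  · have := j_ne hj (p := (X ^ 3 + 1 : K[X])) (by simp)
    simpa [j4, j7, j8, j16, j20] using this
  · have := j_ne hj (p := ((X ^ 3 - 8) ^ 3 - (4 * (X ^ 3 + 1)) ^ 3 : K[X])) (by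
      have : (0 - 8) ^ 3 - (4 * (0 + 1)) ^ 3 = -(2 ^ 6 * 3 ^ 2 : K) := by norm_num
      simp only [eval_sub, eval_pow, eval_mul, eval_add, eval_X, eval_ofNat, eval_one]
      rw [zero_pow (by norm_num), this]
      exact neg_ne_zero.2 (mul_ne_zero (pow_ne_zero _ h2) (pow_ne_zero _ h3)))
    simpa [j4, j7, j8, j16, j20] using this

end

theorem GG_vals : j (GG K 0) = j X * (j X ^ 3 - 8) * (-7 * j X ^ 6 + 4 * j X ^ 3 - 16) ∧
    j (GG K 1) = 4 * (j X ^ 3 + 1) * j X * (-7 * j X ^ 6 + 4 * j X ^ 3 - 16) ∧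
    j (GG K 2) = -4 * (j X ^ 3 + 1) * (-7 * j X ^ 6 + 4 * j X ^ 3 - 16) ∧
    j (GG K 3) = (j X ^ 6 + 20 * j X ^ 3 - 8) * j X * (j X ^ 3 - 8) := by
  have j4 : j 4 = 4 := map_ofNat j 4
  have j7 : j 7 = 7 := map_ofNat j 7
  have j8 : j 8 = 8 := map_ofNat j 8
  have j16 : j 16 = 16 := map_ofNat j 16
  have j20 : j 20 = 20 := map_ofNat j 20
  refine ⟨?_, ?_, ?_, ?_⟩
  · change j (X * (X ^ 3 - 8) * (-7 * X ^ 6 + 4 * X ^ 3 - 16)) = _
    simp [j4, j7, j8, j16, j20]
  · change j (4 * (X ^ 3 + 1) * X * (-7 * X ^ 6 + 4 * X ^ 3 - 16)) = _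
    simp [j4, j7, j8, j16, j20]
  · change j (-4 * (X ^ 3 + 1) * (-7 * X ^ 6 + 4 * X ^ 3 - 16)) = _
    simp [j4, j7, j8, j16, j20]
  · change j ((X ^ 6 + 20 * X ^ 3 - 8) * X * (X ^ 3 - 8)) = _
    simp [j4, j7, j8, j16, j20]

/-- the conic relation for three points -/
theorem conic_of {P₁ P₂ P₃ : (W M).Point} {x₁ y₁ v s w r : M} (hx : x₁ ≠ 0) (hy : y₁ ≠ 0)
    (h1 : At P₁ x₁ y₁) (h2 : At P₂ (x₁ * v) (y₁ * s)) (h3 : At P₃ (x₁ * w) (y₁ * r)) :
    (1 - v ^ 3) * (r ^ 2 - 1) = (1 - w ^ 3) * (s ^ 2 - 1) ∧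
      y₁ ^ 2 * (s ^ 2 - 1) = x₁ ^ 3 * (v ^ 3 - 1) := by
  have e1 := h1.eqn
  have e2 := h2.eqn
  have e3 := h3.eqn
  have e4 : y₁ ^ 2 * (s ^ 2 - 1) = x₁ ^ 3 * (v ^ 3 - 1) := by linear_combination e2 - e1
  have e5 : y₁ ^ 2 * (r ^ 2 - 1) = x₁ ^ 3 * (w ^ 3 - 1) := by linear_combination e3 - e1
  refine ⟨?_, e4⟩
  apply mul_left_cancel₀ (pow_ne_zero 2 hy)
  linear_combination (1 - v ^ 3) * e5 - (1 - w ^ 3) * e4

/-- the special configuration -/
theorem special (hj : Function.Injective j) (h6 : (6 : K) ≠ 0) {y : M} (hy : y ^ 2 = j X ^ 3 + 1)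
    {P T : (W M).Point} (hP : At P (j X) y) (hT : At T (-1) 0) :
    ∃ xb yb v₀ s₀ w₀ : M, xb ≠ 0 ∧ yb ≠ 0 ∧ At (P + P) xb yb ∧ xb * v₀ = j X ∧ yb * s₀ = y ∧
      xb * w₀ = -1 ∧ xb = j X * (j X ^ 3 - 8) / (4 * (j X ^ 3 + 1)) ∧
      Val (gam j) (tt K 1) v₀ ∧ Val (gam j) (tt K 2) w₀ ∧ Val (gam j) (gs K) s₀ ∧
      Val (gam j) (gr K) 0 ∧ Val (gam j) (gk K) (yb ^ 2 / xb ^ 3) := by
  obtain ⟨n1, n2, n3, n4, n5, n6⟩ := nz hj h6
  obtain ⟨g0, g1, g2, g3⟩ := GG_vals (K := K) (j := j)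
  have m2 : (2 : M) ≠ 0 := two_ne (six_ne hj h6)
  have m4 : (4 : M) ≠ 0 := by
    have : (4 : M) = 2 * 2 := by norm_num
    rw [this]; exact mul_ne_zero m2 m2
  have m8 : (8 : M) ≠ 0 := by
    have : (8 : M) = 2 * 4 := by norm_num
    rw [this]; exact mul_ne_zero m2 m4
  have hvt : ∀ i, Val (gam j) (tt K i) (j (GG K i) / j (GG K 0)) := by
    intro i
    have h := (Val.poly (γ := gam j) (MvPolynomial.X i)).div
      (Val.poly (γ := gam j) (MvPolynomial.X 0)) (by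
        rw [gam_X, g0]
        exact mul_ne_zero (mul_ne_zero n1 n2) n3)
    rw [gam_X, gam_X] at h
    exact h
  have hv1 := hvt 1
  have hv2 := hvt 2
  have hv3 := hvt 3
  rw [g0, g1] at hv1
  rw [g0, g2] at hv2
  rw [g0, g3] at hv3
  generalize j X = x at *
  generalize hA : x ^ 6 + 20 * x ^ 3 - 8 = A at *
  generalize hB : -7 * x ^ 6 + 4 * x ^ 3 - 16 = B at *
  have n5' : (1 + x ^ 3 : M) ≠ 0 := by rwa [add_comm]
  have hy0 : y ≠ 0 := by
    rintro rfl
    apply n5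
    rw [← hy]; ring
  have hdbl := hP.dbl (mul_ne_zero m2 hy0)
  obtain ⟨xb, hxb⟩ : ∃ xb, xb = x * (x ^ 3 - 8) / (4 * (x ^ 3 + 1)) := ⟨_, rfl⟩
  obtain ⟨yb, hyb⟩ : ∃ yb, yb = y * A / (8 * (x ^ 3 + 1) ^ 2) := ⟨_, rfl⟩
  have ex : (3 * x ^ 2 / (2 * y)) ^ 2 - x - x = xb := by
    have : (3 * x ^ 2 / (2 * y)) ^ 2 = 9 * x ^ 4 / (4 * y ^ 2) := by
      rw [div_pow]; congr 1 <;> ring
    rw [this, hy, hxb]
    field_simp
    ring
  have ey : -(y + 3 * x ^ 2 / (2 * y) * (xb - x)) = yb := by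
    rw [hyb, hxb]
    have e1 : 3 * x ^ 2 / (2 * y) = y * (3 * x ^ 2) / (2 * (x ^ 3 + 1)) := by
      rw [← hy]; field_simp
    rw [e1, ← hA]
    field_simp
    ring
  rw [ex, ey] at hdbl
  have hxb0 : xb ≠ 0 := by
    rw [hxb]; exact div_ne_zero (mul_ne_zero n1 n2) (mul_ne_zero m4 n5)
  have hyb0 : yb ≠ 0 := by
    rw [hyb]; exact div_ne_zero (mul_ne_zero hy0 n4) (mul_ne_zero m8 (pow_ne_zero _ n5))
  obtain ⟨v₀, hv₀⟩ : ∃ v₀, v₀ = 4 * (x ^ 3 + 1) / (x ^ 3 - 8) := ⟨_, rfl⟩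
  obtain ⟨w₀, hw₀⟩ : ∃ w₀, w₀ = -(4 * (x ^ 3 + 1)) / (x * (x ^ 3 - 8)) := ⟨_, rfl⟩
  obtain ⟨s₀, hs₀⟩ : ∃ s₀, s₀ = 8 * (x ^ 3 + 1) ^ 2 / A := ⟨_, rfl⟩
  have f1 : xb * v₀ = x := by rw [hxb, hv₀]; field_simp
  have f2 : yb * s₀ = y := by rw [hyb, hs₀]; field_simp
  have f3 : xb * w₀ = -1 := by rw [hxb, hw₀]; field_simp
  have p2 : At P (xb * v₀) (yb * s₀) := hP.congr f1.symm f2.symm
  have p3 : At T (xb * w₀) (yb * 0) := hT.congr f3.symm (mul_zero _).symm
  obtain ⟨c1, c2⟩ := conic_of hxb0 hyb0 hdbl p2 p3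
  have nv : 1 - v₀ ^ 3 ≠ 0 := by
    intro h0
    apply n6
    have : (x ^ 3 - 8) ^ 3 * (1 - v₀ ^ 3) = (x ^ 3 - 8) ^ 3 - (4 * (x ^ 3 + 1)) ^ 3 := by
      rw [hv₀]; field_simp
    rw [← this, h0, mul_zero]
  have ns : 1 - s₀ ^ 2 ≠ 0 := by
    intro h0
    have e1 : xb ^ 3 * (v₀ ^ 3 - 1) = 0 := by
      rw [← c2]; linear_combination -yb ^ 2 * h0
    rcases mul_eq_zero.1 e1 with h1 | h1
    · exact pow_ne_zero _ hxb0 h1
    · exact nv (by linear_combination -h1)
  have ns1 : s₀ ≠ 1 := by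
    rintro h0
    apply ns; rw [h0]; ring
  have ns0 : (0 : M) ≠ s₀ := by
    intro h0
    rw [← h0, mul_zero] at f2
    exact hy0 f2.symm
  obtain ⟨q1, q2⟩ := sFun_eq m2 c1 ns1 nv zero_ne_one ns0
  have e1 : 4 * (x ^ 3 + 1) * x * B /
      (x * (x ^ 3 - 8) * B) = v₀ := by
    rw [hv₀]; field_simp
  have e2 : -4 * (x ^ 3 + 1) * B /
      (x * (x ^ 3 - 8) * B) = w₀ := by
    rw [hw₀]; field_simp
  have e3 : A * x * (x ^ 3 - 8) /
      (x * (x ^ 3 - 8) * B) = (0 - 1) / (s₀ - 1) := by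
    have e4 : s₀ - 1 = -B / A := by
      rw [hs₀, div_sub_one n4, ← hA, ← hB]
      congr 1; ring
    rw [e4, zero_sub]
    field_simp
  rw [e1] at hv1
  rw [e2] at hv2
  rw [e3] at hv3
  have hs : Val (gam j) (gs K) s₀ := (hv1.sFun hv2 hv3 q2).congr rfl q1.symm
  have hr : Val (gam j) (gr K) 0 := by
    refine (Val.one.add (hv3.mul (hs.sub Val.one))).congr rfl ?_
    have := sub_ne_zero.2 ns1
    field_simp
    ring
  have hk : Val (gam j) (gk K) (yb ^ 2 / xb ^ 3) := by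
    refine ((Val.one.sub (hv1.pow 3)).div (Val.one.sub (hs.pow 2)) ns).congr rfl ?_
    rw [div_eq_div_iff ns (pow_ne_zero _ hxb0)]
    linear_combination c2
  exact ⟨xb, yb, v₀, s₀, w₀, hxb0, hyb0, hdbl, f1, f2, f3, hxb, hv1, hv2, hs, hr, hk⟩

theorem iter_val {f : Fin (3 + 1) → MvPolynomial (Fin (3 + 1)) K} {e : ℕ} (hd : Data f e)
    (hj : Function.Injective j) {y : M} (hy : y ^ 2 = j X ^ 3 + 1)
    {P T : (W M).Point} (hP : At P (j X) y) (hT : At T (-1) 0) {xb yb v₀ s₀ w₀ : M}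
    (hxb : xb ≠ 0) (hyb : yb ≠ 0) (hb : At (P + P) xb yb) (f1 : xb * v₀ = j X)
    (f2 : yb * s₀ = y) (f3 : xb * w₀ = -1) (hv : Val (gam j) (tt K 1) v₀)
    (hw : Val (gam j) (tt K 2) w₀) (hs : Val (gam j) (gs K) s₀) (hr : Val (gam j) (gr K) 0)
    (hk : Val (gam j) (gk K) (yb ^ 2 / xb ^ 3)) (n : ℕ) :
    (∃ a b, Val (gam j) (Ph hd n (tt K 1)) a ∧ Val (gam j) (Ph hd n (gs K)) b ∧
      At (P + n • (P + P)) (xb * a) (yb * b) ∧
      ∃ a' b', Val (gam j) (Ph hd n (tt K 2)) a' ∧ Val (gam j) (Ph hd n (gr K)) b' ∧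
        At (T + (n ^ 2) • P) (xb * a') (yb * b')) := by
  have h6 := hd.six
  induction n with
  | zero =>
    refine ⟨v₀, s₀, hv.congr (Ph_zero hd _).symm rfl, hs.congr (Ph_zero hd _).symm rfl, ?_,
      w₀, 0, hw.congr (Ph_zero hd _).symm rfl, hr.congr (Ph_zero hd _).symm rfl, ?_⟩
    · rw [zero_smul, add_zero]; exact hP.congr f1.symm f2.symm
    · rw [zero_pow (by norm_num), zero_smul, add_zero]
      exact hT.congr f3.symm (mul_zero _).symm
  | succ n ih =>
    obtain ⟨a, b, ha, hb1, hab, a', b', ha', hb1', hab'⟩ := ih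
    have hT2 : T + T = 0 := hT.dbl_zero rfl
    have n1 : a ≠ 1 := by
      intro h0
      rw [h0, mul_one] at hab
      rcases hab.eq_or_neg hb with h1 | h1
      · have : (2 * (n : ℤ) - 1) • P = 0 := by
          have e1 : (2 * (n : ℤ) - 1) • P = P + n • (P + P) - (P + P) := by
            rw [sub_smul, mul_smul, natCast_zsmul, one_smul, two_smul, smul_add]; abel
          rw [e1, h1, sub_self]
        have := not_torsion hj h6 hP this
        omega
      · have : (2 * (n : ℤ) + 3) • P = 0 := by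
          have e1 : (2 * (n : ℤ) + 3) • P = P + n • (P + P) + (P + P) := by
            rw [add_smul, mul_smul, natCast_zsmul, two_smul, smul_add,
              show (3 : ℤ) • P = P + P + P by
                rw [show (3 : ℤ) = 1 + 1 + 1 by norm_num, add_smul, add_smul, one_smul]]
            abel
          rw [e1, h1, neg_add_cancel]
        have := not_torsion hj h6 hP this
        omega
    have n2 : a' ≠ a := by
      intro h0
      rw [h0] at hab'
      have hsq : (n ^ 2) • P = ((n : ℤ) ^ 2) • P := by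
        rw [← natCast_zsmul]; push_cast; rfl
      have hn : P + n • (P + P) = (2 * (n : ℤ) + 1) • P := by
        rw [add_smul, mul_smul, natCast_zsmul, two_smul, one_smul, smul_add]; abel
      rcases hab'.eq_or_neg hab with h1 | h1
      · have : (2 * ((n : ℤ) ^ 2 - (2 * n + 1))) • P = 0 := by
          have e1 : (2 * ((n : ℤ) ^ 2 - (2 * n + 1))) • P =
              (T + (n ^ 2) • P - (P + n • (P + P))) + (T + (n ^ 2) • P - (P + n • (P + P))) -
                (T + T) := by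
            rw [mul_smul, two_smul, sub_smul, hsq, hn]; abel
          rw [e1, h1, sub_self, hT2]; simp
        have h3 := not_torsion hj h6 hP this
        have h4 : (n : ℤ) ^ 2 = 2 * n + 1 := by linarith
        have h5 : (n : ℤ) * (n - 2) = 1 := by linarith
        have h7 : (n : ℤ) = 1 ∨ (n : ℤ) = -1 := Int.eq_one_or_neg_one_of_mul_eq_one h5
        rcases h7 with h7 | h7
        · rw [h7] at h5; norm_num at h5
        · have : (0 : ℤ) ≤ n := by positivity
          omega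
      · have : (2 * ((n : ℤ) ^ 2 + (2 * n + 1))) • P = 0 := by
          have e1 : (2 * ((n : ℤ) ^ 2 + (2 * n + 1))) • P =
              (T + (n ^ 2) • P + (P + n • (P + P))) + (T + (n ^ 2) • P + (P + n • (P + P))) -
                (T + T) := by
            rw [mul_smul, two_smul, add_smul, hsq, hn]; abel
          rw [e1, h1, neg_add_cancel, hT2]; simp
        have h3 := not_torsion hj h6 hP this
        have h4 : (0 : ℤ) ≤ n := by positivity
        nlinarith
    have g1 := rel_add hxb hyb rfl hab (hb.congr (mul_one _).symm (mul_one _).symm) n1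
    have g2 := rel_add hxb hyb rfl hab' hab n2
    refine ⟨_, _, (hk.addA ha hb1 Val.one Val.one n1).congr (Ph_v hd n).symm rfl,
      (hk.addB ha hb1 Val.one Val.one n1).congr (Ph_s hd n).symm rfl, ?_,
      _, _, (hk.addA ha' hb1' ha hb1 n2).congr (Ph_w hd n).symm rfl,
      (hk.addB ha' hb1' ha hb1 n2).congr (Ph_r hd n).symm rfl, ?_⟩
    · have : P + (n + 1) • (P + P) = P + n • (P + P) + (P + P) := by
        rw [add_smul, one_smul]; abel
      rw [this]; exact g1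
    · have : T + (n + 1) ^ 2 • P = T + n ^ 2 • P + (P + n • (P + P)) := by
        rw [show (n + 1) ^ 2 = n ^ 2 + (n + n + 1) by ring, add_smul, add_smul, add_smul, one_smul,
          smul_add]
        abel
      rw [this]; exact g2

/-- the abscissa of the sum with the point of order two -/
theorem at_add_two {T Q : (W M).Point} {X Z : M} (hT : At T (-1) 0) (hQ : At Q X Z)
    (hX : X ≠ -1) : ∃ z, At (T + Q) ((2 - X) / (1 + X)) z := by
  have h1 := hT.add hQ (fun h => hX h.symm)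
  refine ⟨_, h1.congr ?_ rfl⟩
  have h2 : (1 + X) ≠ 0 := fun h => hX (by linear_combination h)
  have h3 : (-1 - X) ≠ 0 := fun h => hX (by linear_combination -h)
  have h4 := hQ.eqn
  have h5 : ((0 - Z) / (-1 - X)) ^ 2 = (X ^ 3 + 1) / (1 + X) ^ 2 := by
    rw [div_pow, ← h4]
    congr 1 <;> ring
  rw [h5]
  field_simp
  ring

theorem key_bound (h6 : (6 : K) ≠ 0) (k d : ℕ) {A B : MvPolynomial (Fin (3 + 1)) K}
    (hA : A.totalDegree ≤ d) (hB : B.totalDegree ≤ d)
    (hB0 : MvPolynomial.aeval (GG K) B ≠ 0)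
    (h : X * (X ^ 3 - 8) * MvPolynomial.aeval (GG K) A * (pp K k + qq K k) =
      (2 * qq K k - pp K k) * (4 * (X ^ 3 + 1)) * MvPolynomial.aeval (GG K) B) :
    4 ^ k ≤ 4 + 10 * d := by
  have h2 := two_ne h6
  have h3 := three_ne h6
  obtain ⟨hc, hp, hq, hne⟩ := inv_pq h6 k
  have dA : (MvPolynomial.aeval (GG K) A).natDegree ≤ 10 * d :=
    (natDegree_aeval_le _ GG_deg A).trans (Nat.mul_le_mul_left _ hA)
  have dB : (MvPolynomial.aeval (GG K) B).natDegree ≤ 10 * d :=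
    (natDegree_aeval_le _ GG_deg B).trans (Nat.mul_le_mul_left _ hB)
  generalize MvPolynomial.aeval (GG K) A = 𝔸 at *
  generalize MvPolynomial.aeval (GG K) B = 𝔹 at *
  have u3 : IsUnit (3 : K[X]) := by
    have : ((3 : ℕ) : K) ≠ 0 := by exact_mod_cast h3
    exact_mod_cast isUnit_num this
  have hcop : IsCoprime (pp K k + qq K k) (2 * qq K k - pp K k) := by
    have c1 : IsCoprime (pp K k + qq K k) (qq K k) := by
      have : IsCoprime (pp K k + qq K k * 1) (qq K k) := hc.add_mul_left_left _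
      rwa [mul_one] at this
    have c2 : IsCoprime (pp K k + qq K k) (3 * qq K k) :=
      (isCoprime_mul_unit_left_right u3 _ _).2 c1
    have c3 : IsCoprime (pp K k + qq K k) (3 * qq K k + (pp K k + qq K k) * (-1)) :=
      c2.add_mul_left_right _
    have e : 2 * qq K k - pp K k = 3 * qq K k + (pp K k + qq K k) * (-1) := by ring
    rwa [e]
  have n4 : (4 * (X ^ 3 + 1) : K[X]) ≠ 0 := by
    intro h0
    have := congrArg (eval 0) h0
    simp only [eval_mul, eval_add, eval_pow, eval_X, eval_one, eval_ofNat, eval_zero] at this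
    rw [zero_pow (by norm_num), zero_add, mul_one] at this
    have h4 : (4 : K) = 2 * 2 := by norm_num
    rw [h4] at this
    exact mul_ne_zero h2 h2 this
  have n8 : (X * (X ^ 3 - 8) : K[X]) ≠ 0 := by
    refine mul_ne_zero X_ne_zero ?_
    intro h0
    have := congrArg (eval 0) h0
    simp only [eval_sub, eval_pow, eval_X, eval_ofNat, eval_zero] at this
    rw [zero_pow (by norm_num), zero_sub, neg_eq_zero] at this
    exact eight_ne h6 this
  have deg4 : (4 * (X ^ 3 + 1) : K[X]).natDegree ≤ 4 := by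
    refine le_trans (b := 3) ?_ (by norm_num)
    compute_degree
  have deg8 : (X * (X ^ 3 - 8) : K[X]).natDegree ≤ 4 := by
    compute_degree
  by_cases hco : (pp K k + qq K k).coeff (4 ^ k) = 0
  · -- then the other one has full degree
    have hco2 : (2 * qq K k - pp K k).coeff (4 ^ k) ≠ 0 := by
      intro h0
      have e1 : (2 * qq K k - pp K k).coeff (4 ^ k) =
          2 * (qq K k).coeff (4 ^ k) - (pp K k).coeff (4 ^ k) := by
        rw [coeff_sub, show (2 * qq K k : K[X]) = C (2 : K) * qq K k by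
          rw [show (C (2 : K)) = (2 : K[X]) from map_ofNat C 2], coeff_C_mul]
      rw [e1] at h0
      rw [coeff_add] at hco
      have hq0 : (3 : K) * (qq K k).coeff (4 ^ k) = 0 := by linear_combination h0 + hco
      have hq1 : (qq K k).coeff (4 ^ k) = 0 := by
        rcases mul_eq_zero.1 hq0 with h | h
        · exact absurd h h3
        · exact h
      rw [hq1, add_zero] at hco
      rcases hne with h | h
      · exact h hco
      · exact h hq1
    have h7 : 2 * qq K k - pp K k ≠ 0 := by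
      intro h0; rw [h0] at hco2; simp at hco2
    have h8 : 𝔸 ≠ 0 := by
      intro h0
      rw [h0, mul_zero, zero_mul] at h
      exact mul_ne_zero (mul_ne_zero h7 n4) hB0 h.symm
    have h9 : 2 * qq K k - pp K k ∣ X * (X ^ 3 - 8) * 𝔸 := by
      have : 2 * qq K k - pp K k ∣ X * (X ^ 3 - 8) * 𝔸 * (pp K k + qq K k) :=
        ⟨4 * (X ^ 3 + 1) * 𝔹, by rw [h]; ring⟩
      exact hcop.symm.dvd_of_dvd_mul_right this
    have h10 := natDegree_le_of_dvd h9 (mul_ne_zero n8 h8)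
    have h11 : (X * (X ^ 3 - 8) * 𝔸).natDegree ≤ 4 + 10 * d :=
      natDegree_mul_le_of_le deg8 dA
    have h12 : 4 ^ k ≤ (2 * qq K k - pp K k).natDegree := le_natDegree_of_ne_zero hco2
    omega
  · have h9 : pp K k + qq K k ∣ 4 * (X ^ 3 + 1) * 𝔹 := by
      have : pp K k + qq K k ∣ (2 * qq K k - pp K k) * (4 * (X ^ 3 + 1) * 𝔹) :=
        ⟨X * (X ^ 3 - 8) * 𝔸, by rw [← mul_assoc, ← h]; ring⟩
      exact hcop.dvd_of_dvd_mul_left this
    have h10 := natDegree_le_of_dvd h9 (mul_ne_zero n4 hB0)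
    have h11 : (4 * (X ^ 3 + 1) * 𝔹).natDegree ≤ 4 + 10 * d :=
      natDegree_mul_le_of_le deg4 dB
    have h12 : 4 ^ k ≤ (pp K k + qq K k).natDegree := le_natDegree_of_ne_zero hco
    omega

/-- a field containing the polynomial ring, with a square root of `X ^ 3 + 1` -/
theorem exists_field.{u} (K : Type u) [Field K] :
    ∃ (M : Type u) (_ : Field M) (j : K[X] →+* M) (y : M),
    Function.Injective j ∧ y ^ 2 = j X ^ 3 + 1 := by
  obtain ⟨y, hy⟩ := IsAlgClosed.exists_pow_nat_eq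
    (k := AlgebraicClosure (FractionRing K[X])) (algebraMap (FractionRing K[X])
      (AlgebraicClosure (FractionRing K[X])) (algebraMap K[X] (FractionRing K[X]) X) ^ 3 + 1)
      (n := 2) (by norm_num)
  exact ⟨AlgebraicClosure (FractionRing K[X]), inferInstance,
    (algebraMap (FractionRing K[X]) (AlgebraicClosure (FractionRing K[X]))).comp
      (algebraMap K[X] (FractionRing K[X])), y,
    (algebraMap (FractionRing K[X]) (AlgebraicClosure (FractionRing K[X]))).injective.comp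
      (IsFractionRing.injective K[X] (FractionRing K[X])), hy⟩

/-- the degree of the `2 ^ k`-th iterate is at least of order `(2 ^ k) ^ 4` -/
theorem lower_bound {f : Fin (3 + 1) → MvPolynomial (Fin (3 + 1)) K} {e : ℕ} (hd : Data f e)
    (k : ℕ) (g : Fin (3 + 1) → MvPolynomial (Fin (3 + 1)) K) (d : ℕ) (hg : IsReduced g d)
    (hg0 : g 0 ≠ 0) (hgi : Ph hd (2 ^ k) (tt K 2) = inc (g 2) / inc (g 0)) :
    (2 ^ k) ^ 4 ≤ 4 + 10 * d := by
  classical
  have h6 := hd.six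
  obtain ⟨M, hM, j, y, hj, hy⟩ := exists_field K
  have hM6 : (6 : M) ≠ 0 := six_ne hj h6
  obtain ⟨P, hP⟩ := exists_at hM6 hy
  obtain ⟨T, hT⟩ := exists_at (x := (-1 : M)) (y := 0) hM6 (by ring)
  obtain ⟨xb, yb, v₀, s₀, w₀, hxb, hyb, hb, f1, f2, f3, ex, hv, hw, hs, hr, hk⟩ :=
    special hj h6 hy hP hT
  obtain ⟨a, b, -, -, -, a', b', ha', -, hab'⟩ :=
    iter_val hd hj hy hP hT hxb hyb hb f1 f2 f3 hv hw hs hr hk (2 ^ k)
  rw [hgi] at ha'
  obtain ⟨A, B, hA, hB, hB0, hab⟩ := hg.val hg0 ha'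
  have e1 : (2 ^ k) ^ 2 = 2 ^ (2 * k) := by rw [← pow_mul, mul_comm]
  rw [e1] at hab'
  obtain ⟨z, hz⟩ := at_two_pow hj h6 hP (2 * k)
  have hq : j (qq K (2 * k)) ≠ 0 :=
    fun h0 => qq_ne_zero h6 (2 * k) (hj (h0.trans (map_zero j).symm))
  have hpq : pp K (2 * k) + qq K (2 * k) ≠ 0 := by
    intro h0
    apply sum_ne_zero h6 (2 * k)
    have : pp K (2 * k) = - qq K (2 * k) := eq_neg_of_add_eq_zero_left h0
    rw [this]; ring
  have hpq' : j (pp K (2 * k)) + j (qq K (2 * k)) ≠ 0 := by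
    rw [← map_add]
    exact fun h0 => hpq (hj (h0.trans (map_zero j).symm))
  have hne : j (pp K (2 * k)) / j (qq K (2 * k)) ≠ -1 := by
    intro h0
    apply hpq'
    rw [div_eq_iff hq] at h0
    rw [h0]; ring
  obtain ⟨z', hz'⟩ := at_add_two hT hz hne
  have h1 := (hab'.inj hz').1
  rw [gam_apply] at hB0
  rw [hab, gam_apply, gam_apply, ex] at h1
  obtain ⟨n1, n2, n3, n4, n5, n6⟩ := nz hj h6
  have hB1 : MvPolynomial.aeval (GG K) B ≠ 0 := by
    intro h0; rw [h0, map_zero] at hB0; exact hB0 rfl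
  have e2 : (2 ^ k) ^ 4 = 4 ^ (2 * k) := by
    rw [show (4 : ℕ) ^ (2 * k) = (2 ^ 2) ^ (2 * k) by norm_num, ← pow_mul, ← pow_mul]
    congr 1; ring
  rw [e2]
  apply key_bound h6 (2 * k) d hA hB hB1
  apply hj
  have m4 : (4 : M) ≠ 0 := by
    have : (4 : M) = 2 * 2 := by norm_num
    rw [this]; exact mul_ne_zero (two_ne hM6) (two_ne hM6)
  have j2 : j 2 = 2 := map_ofNat j 2
  have j4 : j 4 = 4 := map_ofNat j 4
  have j8 : j 8 = 8 := map_ofNat j 8
  simp only [map_mul, map_add, map_sub, map_pow, map_one, j2, j4, j8]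
  generalize j (pp K (2 * k)) = p at *
  generalize j (qq K (2 * k)) = q at *
  generalize j (MvPolynomial.aeval (GG K) A) = α at *
  generalize j (MvPolynomial.aeval (GG K) B) = β at *
  generalize j X = x at *
  have h3 : (2 - p / q) / (1 + p / q) = (2 * q - p) / (p + q) := by
    rw [div_eq_div_iff _ hpq']
    · field_simp
      ring
    · intro h0
      apply hne; linear_combination h0
  rw [h3, div_mul_div_comm, div_eq_div_iff (mul_ne_zero (mul_ne_zero m4 n5) hB0) hpq'] at h1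
  linear_combination h1

end Pool.Agent.V1156.Dgr
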