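import Pool.Agent.V1156.Dgr.Lower

/-! The degree growth of the self-map. -/

set_option autoImplicit false

namespace Pool.Agent.V1156.Dgr

open MvPolynomial Filter Topology

variable {K : Type*} [Field K]

theorem degree_pos {N : ℕ} {f : Fin (N + 1 + 1) → MvPolynomial (Fin (N + 1 + 1)) K}
    (hf : Dominant f) {n d : ℕ} (h : IterateDegree f n d) : 1 ≤ d := by
  by_contra hd
  have hd0 : d = 0 := by omega
  subst hd0
  obtain ⟨h, g, hh, hg, hgi⟩ := h
  have hc : ∀ i, g i = C (coeff 0 (g i)) := by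
    intro i
    have h0 : (g i).totalDegree = 0 := Nat.le_zero.1 (hg.1 i).totalDegree_le
    exact totalDegree_eq_zero_iff_eq_C.1 h0
  have h1 : (aeval f : _ →ₐ[K] MvPolynomial (Fin (N + 1 + 1)) K)^[n]
      (C (coeff 0 (g 1)) * X 0 - C (coeff 0 (g 0)) * X 1) = 0 := by
    rw [← aeval_substIterate, map_sub, map_mul, map_mul, aeval_X, aeval_X, hgi 0, hgi 1,
      ← MvPolynomial.algebraMap_eq, AlgHom.commutes, AlgHom.commutes,
      MvPolynomial.algebraMap_eq, ← hc, ← hc]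
    ring
  have h2 : (aeval f : _ →ₐ[K] MvPolynomial (Fin (N + 1 + 1)) K)^[n] 0 = 0 := by
    clear * -
    induction n with
    | zero => rfl
    | succ n ih => rw [Function.iterate_succ_apply, map_zero, ih]
  have h3 := Function.Injective.iterate hf n (h1.trans h2.symm)
  have a0 : coeff (Finsupp.single 1 1) (X 0 : MvPolynomial (Fin (N + 1 + 1)) K) = 0 := by
    rw [coeff_X, if_neg]
    intro h5
    have := Finsupp.single_left_injective one_ne_zero h5
    exact absurd this (by simp)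
  have a1 : coeff (Finsupp.single 1 1) (X 1 : MvPolynomial (Fin (N + 1 + 1)) K) = 1 := by
    rw [coeff_X, if_pos rfl]
  have h4 := congrArg (coeff (Finsupp.single 1 1)) h3
  rw [coeff_sub, coeff_C_mul, coeff_C_mul, a0, a1, mul_zero, zero_sub, mul_one,
    coeff_zero, neg_eq_zero] at h4
  apply substIterate_ne_zero hf n 0
  rw [hgi 0, hc 0, h4, C_0, mul_zero]

/-- the degree of an iterate is well-defined -/
theorem degree_unique {N : ℕ} {f : Fin (N + 1) → MvPolynomial (Fin (N + 1)) K}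
    (hf : Dominant f) {n d d' : ℕ} (h : IterateDegree f n d) (h' : IterateDegree f n d') :
    d = d' := by
  obtain ⟨h, g, hh, hg, hgi⟩ := h
  obtain ⟨h', g', hh', hg', hgi'⟩ := h'
  have g0 : g 0 ≠ 0 := by
    intro h0
    exact substIterate_ne_zero hf n 0 (by rw [hgi 0, h0, mul_zero])
  have g0' : g' 0 ≠ 0 := by
    intro h0
    exact substIterate_ne_zero hf n 0 (by rw [hgi' 0, h0, mul_zero])
  have key : ∀ i, g i * g' 0 = g 0 * g' i := by
    intro i
    apply mul_left_cancel₀ (mul_ne_zero hh hh')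
    have e1 : h * g i = h' * g' i := (hgi i).symm.trans (hgi' i)
    have e2 : h * g 0 = h' * g' 0 := (hgi 0).symm.trans (hgi' 0)
    linear_combination h' * g' 0 * e1 - h' * g' i * e2
  have d1 : g 0 ∣ g' 0 := hg.dvd g0 fun i => ⟨g' i, key i⟩
  have d2 : g' 0 ∣ g 0 := hg'.dvd g0' fun i => ⟨g i, by rw [mul_comm, ← key i, mul_comm]⟩
  have t1 := (hg.1 0).totalDegree g0
  have t2 := (hg'.1 0).totalDegree g0'
  obtain ⟨a, ha⟩ := d1
  obtain ⟨b, hb⟩ := d2
  have a0 : a ≠ 0 := by rintro rfl; exact g0' (by rw [ha, mul_zero])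
  have b0 : b ≠ 0 := by rintro rfl; exact g0 (by rw [hb, mul_zero])
  have t3 : (g' 0).totalDegree = (g 0).totalDegree + a.totalDegree := by
    rw [ha, totalDegree_mul_of_isDomain g0 a0]
  have t4 : (g 0).totalDegree = (g' 0).totalDegree + b.totalDegree := by
    nth_rewrite 1 [hb]
    rw [totalDegree_mul_of_isDomain g0' b0]
  omega

/-- the main theorem -/
theorem main (h6 : (6 : K) ≠ 0) :
    ∃ (f : Fin (3 + 1) → MvPolynomial (Fin (3 + 1)) K) (e : ℕ) (deg : ℕ → ℕ),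
      IsReduced f e ∧ Dominant f ∧ (∀ n d, IterateDegree f n d ↔ d = deg n) ∧
      IsDynamicalDegree deg 1 ∧ (∀ k, (2 ^ k) ^ 4 ≤ 4 + 10 * deg (2 ^ k)) ∧
      ∀ ℓ ≤ 3, ¬ Comparable (fun n => (deg n : ℝ)) (fun n => (n : ℝ) ^ ℓ * 1 ^ n) := by
  obtain ⟨f, e, hf, hdom, h1, h2, h3⟩ := exists_map (K := K) h6
  have hd : Data f e := ⟨h6, hf, hdom, h1, h2, h3⟩
  choose g deg hdeg hg hg0 hgi using exists_iterate hdom hf.1
  obtain ⟨C, hC⟩ := upper_bound hd
  have hup : ∀ n ≥ 1, deg n ≤ C * n ^ 10 := by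
    intro n hn
    refine hC n hn (g n) (deg n) (hg n) (hg0 n) ?_
    intro i
    rw [Ph_apply]
    exact hgi n i
  have hlow : ∀ k, (2 ^ k) ^ 4 ≤ 4 + 10 * deg (2 ^ k) := by
    intro k
    refine lower_bound hd k (g (2 ^ k)) _ (hg _) (hg0 _) ?_
    rw [Ph_apply]
    exact hgi _ 2
  have hpos : ∀ n, 1 ≤ deg n := fun n => degree_pos hdom (hdeg n)
  have hiff : ∀ n d, IterateDegree f n d ↔ d = deg n := fun n d =>
    ⟨fun h => degree_unique hdom h (hdeg n), fun h => h ▸ hdeg n⟩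
  refine ⟨f, e, deg, hf, hdom, hiff, ?_, hlow, ?_⟩
  · have t1 : Tendsto (fun n : ℕ => (n : ℝ) ^ ((11 : ℝ) / (1 * (n : ℝ) + 0))) atTop (𝓝 1) :=
      (tendsto_rpow_div_mul_add 11 1 0 zero_ne_one).comp tendsto_natCast_atTop_atTop
    refine tendsto_of_tendsto_of_tendsto_of_le_of_le' tendsto_const_nhds t1 ?_ ?_
    · filter_upwards with n
      have : (1 : ℝ) ≤ deg n := by exact_mod_cast hpos n
      exact Real.one_le_rpow this (by positivity)
    · filter_upwards [eventually_ge_atTop (C + 1)] with n hn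
      have hn0 : (0 : ℝ) ≤ n := by positivity
      have e1 : (deg n : ℝ) ≤ (n : ℝ) ^ (11 : ℝ) := by
        have : deg n ≤ n ^ 11 := by
          calc deg n ≤ C * n ^ 10 := hup n (by omega)
            _ ≤ n * n ^ 10 := Nat.mul_le_mul_right _ (by omega)
            _ = n ^ 11 := by ring
        have e2 : (n : ℝ) ^ (11 : ℝ) = (n : ℝ) ^ (11 : ℕ) := by
          rw [← Real.rpow_natCast]; norm_num
        rw [e2]
        exact_mod_cast this
      calc (deg n : ℝ) ^ (1 / (n : ℝ)) ≤ ((n : ℝ) ^ (11 : ℝ)) ^ (1 / (n : ℝ)) :=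
            Real.rpow_le_rpow (by positivity) e1 (by positivity)
        _ = (n : ℝ) ^ ((11 : ℝ) / (1 * (n : ℝ) + 0)) := by
            rw [← Real.rpow_mul hn0]; congr 1; rw [one_mul, add_zero]; ring
  · intro ℓ hℓ hcomp
    obtain ⟨c₁, c₂, c₃, hc1, hc2, hc3, hall⟩ := hcomp
    obtain ⟨k, hk⟩ := exists_nat_gt (max c₃ (4 + 10 / c₁))
    have hk2 : (k : ℝ) < 2 ^ k := by exact_mod_cast Nat.lt_two_pow_self
    have hk3 : max c₃ (4 + 10 / c₁) < (2 : ℝ) ^ k := hk.trans hk2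
    have h4 : c₃ ≤ ((2 ^ k : ℕ) : ℝ) := by
      push_cast
      exact (le_max_left _ _).trans hk3.le
    have h5 : 4 + 10 / c₁ < (2 : ℝ) ^ k := lt_of_le_of_lt (le_max_right _ _) hk3
    have h7 : c₁ * (deg (2 ^ k) : ℝ) ≤ ((2 ^ k : ℕ) : ℝ) ^ ℓ * 1 ^ (2 ^ k) :=
      (hall (2 ^ k) h4).1
    have h8 : ((2 : ℝ) ^ k) ^ 4 ≤ 4 + 10 * (deg (2 ^ k) : ℝ) := by exact_mod_cast hlow k
    rw [one_pow, mul_one] at h7
    push_cast at h7
    have hx1 : (1 : ℝ) ≤ 2 ^ k := one_le_pow₀ (by norm_num)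
    generalize (2 : ℝ) ^ k = x at *
    have h9 : x ^ ℓ ≤ x ^ 3 := pow_le_pow_right₀ hx1 hℓ
    have h10 : (deg (2 ^ k) : ℝ) ≤ x ^ 3 / c₁ := by
      rw [le_div_iff₀ hc1]; linarith
    have h11 : (1 : ℝ) ≤ x ^ 3 := one_le_pow₀ hx1
    have h12 : x ^ 4 ≤ (4 + 10 / c₁) * x ^ 3 := by
      have : (4 + 10 / c₁) * x ^ 3 = 4 * x ^ 3 + 10 * (x ^ 3 / c₁) := by ring
      rw [this]; linarith
    have h13 : (4 + 10 / c₁) * x ^ 3 < x * x ^ 3 :=
      mul_lt_mul_of_pos_right h5 (by linarith)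
    have h14 : x * x ^ 3 = x ^ 4 := by ring
    linarith

end Pool.Agent.V1156.Dgr
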