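import Pool.Agent.V1156.Dgr.Curve

/-! Addition of points of the curve `y ^ 2 = x ^ 3 + 1` in coordinates relative to a base point. -/

set_option autoImplicit false
set_option linter.unusedSectionVars false

namespace Pool.Agent.V1156.Dgr

variable {F : Type*} [Field F]

/-- first relative coordinate of a sum -/
def addA (κ a b a' b' : F) : F := κ * ((b - b') / (a - a')) ^ 2 - a - a'

/-- second relative coordinate of a sum -/
def addB (κ a b a' b' : F) : F := -(b + (b - b') / (a - a') * (addA κ a b a' b' - a))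

/-- first relative coordinate of a double -/
def dblA (κ a b : F) : F := κ * (3 * a ^ 2 / (2 * κ * b)) ^ 2 - a - a

/-- second relative coordinate of a double -/
def dblB (κ a b : F) : F := -(b + 3 * a ^ 2 / (2 * κ * b) * (dblA κ a b - a))

theorem rel_add [DecidableEq F] {P P' : (W F).Point} {x₁ y₁ κ a b a' b' : F} (hx : x₁ ≠ 0)
    (hy : y₁ ≠ 0) (hκ : κ = y₁ ^ 2 / x₁ ^ 3) (h : At P (x₁ * a) (y₁ * b))
    (h' : At P' (x₁ * a') (y₁ * b')) (ha : a ≠ a') :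
    At (P + P') (x₁ * addA κ a b a' b') (y₁ * addB κ a b a' b') := by
  have h1 : x₁ * a ≠ x₁ * a' := fun h0 => ha (mul_left_cancel₀ hx h0)
  have h2 : a - a' ≠ 0 := sub_ne_zero.2 ha
  have hs : (y₁ * b - y₁ * b') / (x₁ * a - x₁ * a') = y₁ / x₁ * ((b - b') / (a - a')) := by
    rw [← mul_sub, ← mul_sub]; field_simp
  have h3 := h.add h' h1
  rw [hs] at h3
  have hA : (y₁ / x₁ * ((b - b') / (a - a'))) ^ 2 - x₁ * a - x₁ * a' =
      x₁ * addA κ a b a' b' := by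
    rw [addA, hκ]; field_simp
  rw [hA] at h3
  refine h3.congr rfl ?_
  rw [addB]; field_simp

theorem rel_dbl [DecidableEq F] {P : (W F).Point} {x₁ y₁ κ a b : F} (hx : x₁ ≠ 0)
    (hy : y₁ ≠ 0) (hκ : κ = y₁ ^ 2 / x₁ ^ 3) (h : At P (x₁ * a) (y₁ * b)) (h2 : (2 : F) ≠ 0)
    (hb : b ≠ 0) :
    At (P + P) (x₁ * dblA κ a b) (y₁ * dblB κ a b) := by
  have h1 : 2 * (y₁ * b) ≠ 0 := mul_ne_zero h2 (mul_ne_zero hy hb)
  have hκ0 : κ ≠ 0 := by rw [hκ]; exact div_ne_zero (pow_ne_zero _ hy) (pow_ne_zero _ hx)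
  have hs : 3 * (x₁ * a) ^ 2 / (2 * (y₁ * b)) = y₁ / x₁ * (3 * a ^ 2 / (2 * κ * b)) := by
    rw [hκ]; field_simp
  have h3 := h.dbl h1
  rw [hs] at h3
  have hA : (y₁ / x₁ * (3 * a ^ 2 / (2 * κ * b))) ^ 2 - x₁ * a - x₁ * a =
      x₁ * dblA κ a b := by
    rw [dblA]
    have : κ * (3 * a ^ 2 / (2 * κ * b)) ^ 2 =
      y₁ ^ 2 / x₁ ^ 3 * (3 * a ^ 2 / (2 * κ * b)) ^ 2 := by rw [← hκ]
    rw [this]; field_simp
  rw [hA] at h3
  refine h3.congr rfl ?_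
  rw [dblB]; field_simp

/-- the parametrisation of the conic: `s` as a rational function of `v, w, l` -/
def sFun (v w l : F) : F :=
  ((1 - v ^ 3) * l ^ 2 - 2 * (1 - v ^ 3) * l + (1 - w ^ 3)) / ((1 - v ^ 3) * l ^ 2 - (1 - w ^ 3))

theorem sFun_eq {v w s r : F} (h2 : (2 : F) ≠ 0)
    (h : (1 - v ^ 3) * (r ^ 2 - 1) = (1 - w ^ 3) * (s ^ 2 - 1))
    (hs : s ≠ 1) (hv : 1 - v ^ 3 ≠ 0) (hr : r ≠ 1) (hrs : r ≠ s) :
    s = sFun v w ((r - 1) / (s - 1)) ∧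
      (1 - v ^ 3) * ((r - 1) / (s - 1)) ^ 2 - (1 - w ^ 3) ≠ 0 := by
  have hs' : s - 1 ≠ 0 := sub_ne_zero.2 hs
  have hr' : r - 1 ≠ 0 := sub_ne_zero.2 hr
  obtain ⟨l, hl⟩ : ∃ l, l = (r - 1) / (s - 1) := ⟨_, rfl⟩
  rw [← hl]
  have hrl : r = 1 + l * (s - 1) := by rw [hl]; field_simp; ring
  have hl0 : l ≠ 0 := by rw [hl]; exact div_ne_zero hr' hs'
  have hl1 : l ≠ 1 := by
    intro h0
    apply hrs
    rw [hrl, h0]; ring
  have key : s * ((1 - v ^ 3) * l ^ 2 - (1 - w ^ 3)) =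
      (1 - v ^ 3) * l ^ 2 - 2 * (1 - v ^ 3) * l + (1 - w ^ 3) := by
    apply mul_left_cancel₀ hs'
    have h3 : (1 - v ^ 3) * ((1 + l * (s - 1)) ^ 2 - 1) = (1 - w ^ 3) * (s ^ 2 - 1) := by
      rw [← hrl]; exact h
    linear_combination h3
  have hne : (1 - v ^ 3) * l ^ 2 - (1 - w ^ 3) ≠ 0 := by
    intro h0
    rw [h0, mul_zero] at key
    have h4 : 2 * ((1 - w ^ 3) - (1 - v ^ 3) * l) = 0 := by linear_combination -key - h0
    have h5 : (1 - w ^ 3) = (1 - v ^ 3) * l := by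
      rcases mul_eq_zero.1 h4 with h6 | h6
      · exact absurd h6 h2
      · exact sub_eq_zero.1 h6
    rw [h5] at h0
    have h6 : (1 - v ^ 3) * (l * (l - 1)) = 0 := by linear_combination h0
    rcases mul_eq_zero.1 h6 with h7 | h7
    · exact hv h7
    · rcases mul_eq_zero.1 h7 with h8 | h8
      · exact hl0 h8
      · exact hl1 (sub_eq_zero.1 h8)
  exact ⟨by rw [sFun, eq_div_iff hne, key], hne⟩

section map

variable {F' : Type*} [Field F'] (φ : F →+* F')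

theorem map_addA (κ a b a' b' : F) : φ (addA κ a b a' b') = addA (φ κ) (φ a) (φ b) (φ a') (φ b') := by
  simp [addA]

theorem map_addB (κ a b a' b' : F) : φ (addB κ a b a' b') = addB (φ κ) (φ a) (φ b) (φ a') (φ b') := by
  simp [addB, map_addA]

theorem map_dblA (κ a b : F) : φ (dblA κ a b) = dblA (φ κ) (φ a) (φ b) := by
  have h2 : φ 2 = 2 := map_ofNat φ 2
  have h3 : φ 3 = 3 := map_ofNat φ 3
  simp [dblA, h2, h3]

theorem map_dblB (κ a b : F) : φ (dblB κ a b) = dblB (φ κ) (φ a) (φ b) := by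
  have h2 : φ 2 = 2 := map_ofNat φ 2
  have h3 : φ 3 = 3 := map_ofNat φ 3
  simp [dblB, map_dblA, h2, h3]

theorem map_sFun (v w l : F) : φ (sFun v w l) = sFun (φ v) (φ w) (φ l) := by
  have h2 : φ 2 = 2 := map_ofNat φ 2
  simp [sFun, h2]

end map

end Pool.Agent.V1156.Dgr
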