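import Pool.Agent.V1156.Dgr.Dom

/-! Formula for the iterates and polynomial upper bound for their degrees. -/

set_option autoImplicit false
set_option linter.unusedSectionVars false

namespace Pool.Agent.V1156.Dgr

open MvPolynomial

variable {K : Type*} [Field K]

/-- the data of the self-map -/
structure Data (f : Fin (3 + 1) → MvPolynomial (Fin (3 + 1)) K) (e : ℕ) : Prop where
  six : (6 : K) ≠ 0
  red : IsReduced f e
  dom : Dominant f
  h1 : inc (f 1) / inc (f 0) = v1 K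
  h2 : inc (f 2) / inc (f 0) = w1 K
  h3 : inc (f 3) / inc (f 0) = l1 K

variable {f : Fin (3 + 1) → MvPolynomial (Fin (3 + 1)) K} {e : ℕ}

/-- the iterates of the endomorphism -/
noncomputable def Ph (hd : Data f e) (n : ℕ) : QF (Fin (3 + 1)) K →+* QF (Fin (3 + 1)) K :=
  (endo f hd.dom) ^ n

theorem Ph_apply (hd : Data f e) (n : ℕ) (a : QF (Fin (3 + 1)) K) :
    Ph hd n a = (endo f hd.dom)^[n] a := by
  rw [Ph, RingHom.coe_pow]

theorem Ph_zero (hd : Data f e) (a : QF (Fin (3 + 1)) K) : Ph hd 0 a = a := by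
  rw [Ph_apply]; rfl

theorem Ph_succ (hd : Data f e) (n : ℕ) (a : QF (Fin (3 + 1)) K) :
    Ph hd (n + 1) a = Ph hd n (endo f hd.dom a) := by
  rw [Ph_apply, Ph_apply, Function.iterate_succ_apply]

theorem endo_tt (hd : Data f e) (i : Fin (3 + 1)) :
    endo f hd.dom (tt K i) = inc (f i) / inc (f 0) := by
  rw [tt, map_div₀, endo_inc, endo_inc, aeval_X, aeval_X]

theorem endo_gs (hd : Data f e) : endo f hd.dom (gs K) = s1 K := by
  rw [gs, map_sFun, endo_tt hd, endo_tt hd, endo_tt hd, hd.h1, hd.h2, hd.h3, sFun_step hd.six]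

theorem endo_gr (hd : Data f e) : endo f hd.dom (gr K) = r1 K := by
  rw [gr, map_add, map_mul, map_sub, map_one, endo_tt hd, hd.h3, endo_gs hd, r1_step hd.six]

theorem endo_gk (hd : Data f e) : endo f hd.dom (gk K) = gk K := by
  rw [← gk_step hd.six]
  nth_rewrite 1 [gk_step hd.six]
  rw [gk, map_div₀, map_sub, map_sub, map_pow, map_pow, map_one, endo_tt hd, endo_gs hd, hd.h1]

theorem Ph_gk (hd : Data f e) (n : ℕ) : Ph hd n (gk K) = gk K := by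
  induction n with
  | zero => exact Ph_zero hd _
  | succ n ih => rw [Ph_succ hd, endo_gk hd, ih]

theorem Ph_v (hd : Data f e) (n : ℕ) : Ph hd (n + 1) (tt K 1) =
    addA (gk K) (Ph hd n (tt K 1)) (Ph hd n (gs K)) 1 1 := by
  rw [Ph_succ hd, endo_tt hd, hd.h1, v1, map_addA, Ph_gk hd, map_one]

theorem Ph_s (hd : Data f e) (n : ℕ) : Ph hd (n + 1) (gs K) =
    addB (gk K) (Ph hd n (tt K 1)) (Ph hd n (gs K)) 1 1 := by
  rw [Ph_succ hd, endo_gs hd, s1, map_addB, Ph_gk hd, map_one]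

theorem Ph_w (hd : Data f e) (n : ℕ) : Ph hd (n + 1) (tt K 2) =
    addA (gk K) (Ph hd n (tt K 2)) (Ph hd n (gr K)) (Ph hd n (tt K 1)) (Ph hd n (gs K)) := by
  rw [Ph_succ hd, endo_tt hd, hd.h2, w1, map_addA, Ph_gk hd]

theorem Ph_r (hd : Data f e) (n : ℕ) : Ph hd (n + 1) (gr K) =
    addB (gk K) (Ph hd n (tt K 2)) (Ph hd n (gr K)) (Ph hd n (tt K 1)) (Ph hd n (gs K)) := by
  rw [Ph_succ hd, endo_gr hd, r1, map_addB, Ph_gk hd]

theorem Ph_l (hd : Data f e) (n : ℕ) : Ph hd n (tt K 3) =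
    (Ph hd n (gr K) - 1) / (Ph hd n (gs K) - 1) := by
  have h4 := sub_ne_zero.2 (gs_ne_one hd.six)
  have : tt K 3 = (gr K - 1) / (gs K - 1) := by
    rw [gr]; field_simp; ring
  rw [this, map_div₀, map_sub, map_sub, map_one]

theorem Ph_v_ne (hd : Data f e) (n : ℕ) : Ph hd n (tt K 1) ≠ 1 := by
  intro h
  exact tt_one_ne hd.six ((Ph hd n).injective (h.trans (map_one _).symm))

theorem Ph_w_ne (hd : Data f e) (n : ℕ) : Ph hd n (tt K 2) ≠ Ph hd n (tt K 1) := by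
  intro h
  exact tt_two_ne hd.six ((Ph hd n).injective h)

section points

variable {Ω : Type*} [Field Ω] [DecidableEq Ω] {ι : QF (Fin (3 + 1)) K →+* Ω} {x₁ y₁ : Ω}

theorem iter_points (hd : Data f e) (hb : Base ι x₁ y₁) {P₁ P₂ P₃ : (W Ω).Point}
    (h1 : Rl ι x₁ y₁ P₁ 1 1) (h2 : Rl ι x₁ y₁ P₂ (tt K 1) (gs K))
    (h3 : Rl ι x₁ y₁ P₃ (tt K 2) (gr K)) (n : ℕ) :
    Rl ι x₁ y₁ (P₂ + n • P₁) (Ph hd n (tt K 1)) (Ph hd n (gs K)) ∧
    ∃ c ≤ n ^ 2, Rl ι x₁ y₁ (P₃ + n • P₂ + c • P₁) (Ph hd n (tt K 2)) (Ph hd n (gr K)) := by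
  induction n with
  | zero =>
    refine ⟨?_, 0, le_refl _, ?_⟩
    · rw [zero_smul, add_zero, Ph_zero, Ph_zero]; exact h2
    · rw [zero_smul, zero_smul, add_zero, add_zero, Ph_zero, Ph_zero]; exact h3
  | succ n ih =>
    obtain ⟨i1, c, hc, i2⟩ := ih
    have j1 := i1.add hd.six hb h1 (Ph_v_ne hd n)
    have j2 := i2.add hd.six hb i1 (Ph_w_ne hd n)
    rw [← Ph_v, ← Ph_s] at j1
    rw [← Ph_w, ← Ph_r] at j2
    refine ⟨?_, c + n, ?_, ?_⟩
    · have : P₂ + (n + 1) • P₁ = P₂ + n • P₁ + P₁ := by rw [add_smul, one_smul]; abel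
      rw [this]; exact j1
    · nlinarith
    · have : P₃ + (n + 1) • P₂ + (c + n) • P₁ = P₃ + n • P₂ + c • P₁ + (P₂ + n • P₁) := by
        rw [add_smul, add_smul, one_smul]; abel
      rw [this]; exact j2

variable (ι x₁ y₁) in
/-- the coordinates of the point `Q` have degree at most `B` -/
def Bd (Q : (W Ω).Point) (B : ℕ) : Prop :=
  Q = 0 ∨ ∃ a b, Rl ι x₁ y₁ Q a b ∧ Rep a B ∧ Rep b B

theorem Bd.mono {Q : (W Ω).Point} {B B' : ℕ} (h : Bd ι x₁ y₁ Q B) (hB : B ≤ B') :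
    Bd ι x₁ y₁ Q B' := by
  rcases h with h | ⟨a, b, h, ha, hb⟩
  · exact Or.inl h
  · exact Or.inr ⟨a, b, h, ha.mono hB, hb.mono hB⟩

theorem rep_three : Rep (3 : QF (Fin (3 + 1)) K) 0 := by
  have := Rep.const (σ := Fin (3 + 1)) (3 : K)
  rwa [map_ofNat] at this

theorem rep_two : Rep (2 : QF (Fin (3 + 1)) K) 0 := by
  have := Rep.const (σ := Fin (3 + 1)) (2 : K)
  rwa [map_ofNat] at this

theorem Bd.add (h6 : (6 : K) ≠ 0) (hb : Base ι x₁ y₁) {Q Q' : (W Ω).Point} {B : ℕ}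
    (hk : Rep (gk K) B) (h : Bd ι x₁ y₁ Q B) (h' : Bd ι x₁ y₁ Q' B) :
    Bd ι x₁ y₁ (Q + Q') (32 * B) := by
  rcases h with rfl | ⟨a, b, h, ha, hb1⟩
  · rw [zero_add]; exact h'.mono (by omega)
  rcases h' with rfl | ⟨a', b', h', ha', hb1'⟩
  · rw [add_zero]; exact Or.inr ⟨a, b, h, ha.mono (by omega), hb1.mono (by omega)⟩
  by_cases hne : a = a'
  · subst hne
    rcases At.eq_or_neg h h' with rfl | rfl
    · by_cases hb0 : b = 0
      · left
        subst hb0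
        refine At.dbl_zero h ?_
        rw [map_zero, mul_zero]
      · right
        have hd := rel_dbl (hb.x_ne h6) (hb.y_ne h6) (hb.k h6) h (two_ne (hb.six h6))
          (fun h0 => hb0 (ι.injective (h0.trans (map_zero ι).symm)))
        rw [← map_dblA, ← map_dblB] at hd
        have r1 := (rep_three (K := K)).mul ha.sq
        have r2 := ((rep_two (K := K)).mul hk).mul hb1
        have r3 := r1.div r2
        have r4 := ((hk.mul r3.sq).sub ha).sub ha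
        have r5 := (hb1.add (r3.mul (r4.sub ha))).neg
        exact ⟨_, _, hd, r4.mono (by omega), r5.mono (by omega)⟩
    · left
      exact neg_add_cancel _
  · right
    have r1 := (hb1.sub hb1').div (ha.sub ha')
    have r4 := ((hk.mul r1.sq).sub ha).sub ha'
    have r5 := (hb1.add (r1.mul (r4.sub ha))).neg
    exact ⟨_, _, h.add h6 hb h' hne, r4.mono (by omega), r5.mono (by omega)⟩

theorem Bd.smul (h6 : (6 : K) ≠ 0) (hb : Base ι x₁ y₁) {Q : (W Ω).Point} {B : ℕ}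
    (hk : Rep (gk K) B) (h : Bd ι x₁ y₁ Q B) (k : ℕ) :
    ∀ n ≤ 2 ^ k, Bd ι x₁ y₁ (n • Q) (32 ^ k * B) := by
  induction k with
  | zero =>
    intro n hn
    have : n = 0 ∨ n = 1 := by
      rw [pow_zero] at hn; omega
    rcases this with rfl | rfl
    · left; exact zero_smul _ _
    · rw [one_smul, pow_zero, one_mul]; exact h
  | succ k ih =>
    intro n hn
    have e1 : n = n / 2 + (n - n / 2) := by omega
    rw [pow_succ] at hn
    have h1 := ih (n / 2) (by omega)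
    have h2 := ih (n - n / 2) (by omega)
    have hk' : Rep (gk K) (32 ^ k * B) := hk.mono (Nat.le_mul_of_pos_left _ (by positivity))
    have h3 := h1.add h6 hb hk' h2
    rw [← add_smul, ← e1] at h3
    refine h3.mono (le_of_eq ?_)
    rw [pow_succ]; ring

end points

/-- the degree of the `n`-th iterate is bounded by a polynomial in `n` -/
theorem upper_bound (hd : Data f e) : ∃ C : ℕ, ∀ n ≥ 1,
    ∀ (g : Fin (3 + 1) → MvPolynomial (Fin (3 + 1)) K) (d : ℕ), IsReduced g d → g 0 ≠ 0 →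
    (∀ i, Ph hd n (tt K i) = inc (g i) / inc (g 0)) → d ≤ C * n ^ 10 := by
  classical
  have h6 := hd.six
  obtain ⟨x₁, y₁, hb⟩ := exists_base K
  obtain ⟨P₁, P₂, P₃, h1, h2, h3⟩ := exists_cfg h6 hb
  obtain ⟨dk, hk⟩ := hasRep_gk (K := K)
  obtain ⟨ds, hs⟩ := hasRep_gs (K := K)
  obtain ⟨dr, hr⟩ := hasRep_gr (K := K)
  obtain ⟨B, hB⟩ : ∃ B, B = dk + ds + dr + 1 := ⟨_, rfl⟩
  have hkB : Rep (gk K) B := hk.mono (by omega)
  have b1 : Bd _ x₁ y₁ P₁ B := Or.inr ⟨_, _, h1, Rep.one.mono (by omega), Rep.one.mono (by omega)⟩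
  have b2 : Bd _ x₁ y₁ P₂ B := Or.inr ⟨_, _, h2, (Rep.ratio 1 0).mono (by omega),
    hs.mono (by omega)⟩
  have b3 : Bd _ x₁ y₁ P₃ B := Or.inr ⟨_, _, h3, (Rep.ratio 2 0).mono (by omega),
    hr.mono (by omega)⟩
  refine ⟨8 * 32 ^ 2 * 1024 * B, fun n hn g d hg hg0 hgi => ?_⟩
  obtain ⟨i1, c, hc, i2⟩ := iter_points hd hb h1 h2 h3 n
  obtain ⟨m, hm⟩ : ∃ m, m = Nat.log 2 n + 1 := ⟨_, rfl⟩
  have hm1 : n < 2 ^ m := by rw [hm]; exact Nat.lt_pow_succ_log_self (by norm_num) n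
  have hm2 : 2 ^ m ≤ 2 * n := by
    rw [hm, pow_succ]
    have := Nat.pow_log_le_self 2 (x := n) (by omega)
    omega
  have hpow : (2 : ℕ) ^ (2 * m) = 2 ^ m * 2 ^ m := by rw [two_mul, pow_add]
  have hn2 : n ^ 2 ≤ 2 ^ (2 * m) := by rw [hpow]; nlinarith
  have hn1 : n ≤ 2 ^ (2 * m) := by nlinarith
  have h32 : 32 ^ (2 * m) ≤ 1024 * n ^ 10 := by
    have e1 : (32 : ℕ) ^ (2 * m) = (2 ^ m) ^ 10 := by
      rw [show (32 : ℕ) = 2 ^ 5 by norm_num, ← pow_mul, ← pow_mul]; ring_nf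
    rw [e1]
    calc (2 ^ m) ^ 10 ≤ (2 * n) ^ 10 := Nat.pow_le_pow_left hm2 10
      _ = 1024 * n ^ 10 := by ring
  obtain ⟨D, hD⟩ : ∃ D, D = 32 ^ (2 * m) * B := ⟨_, rfl⟩
  have hBD : B ≤ D := by rw [hD]; exact Nat.le_mul_of_pos_left _ (by positivity)
  have m1 : Bd _ x₁ y₁ (n • P₁) D := hD ▸ b1.smul h6 hb hkB (2 * m) n hn1
  have m2 : Bd _ x₁ y₁ (n • P₂) D := hD ▸ b2.smul h6 hb hkB (2 * m) n hn1
  have m3 : Bd _ x₁ y₁ (c • P₁) D := hD ▸ b1.smul h6 hb hkB (2 * m) c (hc.trans hn2)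
  have n1 : Bd _ x₁ y₁ (P₂ + n • P₁) (32 * D) := (b2.mono hBD).add h6 hb (hkB.mono hBD) m1
  have n2 : Bd _ x₁ y₁ (P₃ + n • P₂) (32 * D) := (b3.mono hBD).add h6 hb (hkB.mono hBD) m2
  have n3 : Bd _ x₁ y₁ (P₃ + n • P₂ + c • P₁) (32 * (32 * D)) :=
    n2.add h6 hb (hkB.mono (by omega)) (m3.mono (by omega))
  have r12 : Rep (Ph hd n (tt K 1)) (32 * D) ∧ Rep (Ph hd n (gs K)) (32 * D) := by
    rcases n1 with h0 | ⟨a, b, h, ha, hb'⟩
    · exact absurd h0 (At.ne_zero i1)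
    · obtain ⟨e1, e2⟩ := i1.inj h6 hb h
      rw [e1, e2]; exact ⟨ha, hb'⟩
  have r34 : Rep (Ph hd n (tt K 2)) (32 * (32 * D)) ∧ Rep (Ph hd n (gr K)) (32 * (32 * D)) := by
    rcases n3 with h0 | ⟨a, b, h, ha, hb'⟩
    · exact absurd h0 (At.ne_zero i2)
    · obtain ⟨e1, e2⟩ := i2.inj h6 hb h
      rw [e1, e2]; exact ⟨ha, hb'⟩
  have r5 : Rep (Ph hd n (tt K 3)) (2 * (32 * (32 * D))) := by
    rw [Ph_l]
    exact ((r34.2.sub Rep.one).div (r12.2.sub Rep.one)).mono (by omega)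
  have hall : ∀ i, Rep (inc (g i) / inc (g 0)) (2 * (32 * (32 * D))) := by
    intro i
    rw [← hgi i]
    fin_cases i
    · have : tt K 0 = 1 := div_self (inc_ne (X_ne_zero _))
      change Rep (Ph hd n (tt K 0)) _
      rw [this, map_one]
      exact Rep.one.mono (by omega)
    · exact r12.1.mono (by omega)
    · exact r34.1.mono (by omega)
    · exact r5
  have hfin := hg.degree_le hg0 hall
  calc d ≤ (3 + 1) * (2 * (32 * (32 * D))) := hfin
    _ = 8 * 32 ^ 2 * B * 32 ^ (2 * m) := by rw [hD]; ring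
    _ ≤ 8 * 32 ^ 2 * B * (1024 * n ^ 10) := Nat.mul_le_mul_left _ h32
    _ = 8 * 32 ^ 2 * 1024 * B * n ^ 10 := by ring

end Pool.Agent.V1156.Dgr
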